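import Pool.Agent.H531.LO.Sys

set_option autoImplicit false

/-!
# The places of a system and their windows
-/

open Finset Filter Topology Polynomial

namespace Pool.Agent.H531.LO

open Pool.Agent.H559.PV (GP un pl law_win sys_of un_eq)
open Pool.Agent.H559.HY (omF CF RS WW cntF bh log_val growth cut_WW WW_mono WW_top div_lim)
open Pool.Agent.H559.BS (Limit log_top)
open Pool.Agent.T2H32.BF (V V_pos V_anti)

/-- the places of the system `F` -/
def PlA (S : Set ℕ) (F : Finset ℤ[X]) : Set ℕ := {m | 1 ≤ m ∧ ∀ f ∈ F, (f.eval (m : ℤ)).natAbs ∈ S}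

open Classical in
/-- the allowed classes -/
noncomputable def AlF (F : Finset ℤ[X]) (q : ℕ) : Finset ℕ := (range q).filter fun a => Alw F q a

theorem mem_AlF {F : Finset ℤ[X]} {q a : ℕ} : a ∈ AlF F q ↔ a < q ∧ Alw F q a := by
  classical
  unfold AlF
  rw [mem_filter, mem_range]

theorem ix_cnt (S : Set ℕ) (F : Finset ℤ[X]) (y : ℕ) : ix (PlA S F) (y + 1) = cntF S F y := by
  classical
  unfold ix cntF
  rw [Nat.count_eq_card_filter_range]
  rw [← Set.ncard_coe_finset]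
  congr 1
  ext m
  rw [mem_coe, mem_filter, mem_range]
  simp only [Set.mem_ofPred_eq, PlA]
  constructor
  · rintro ⟨h1, h2, h3⟩
    exact ⟨h2, by omega, h3⟩
  · rintro ⟨h1, h2, h3⟩
    exact ⟨by omega, h1, h3⟩

theorem val_large {f : ℤ[X]} (hf : GP f) : ∀ᶠ m : ℕ in atTop, m / 2 ≤ (f.eval (m : ℤ)).natAbs := by
  filter_upwards [growth f hf.deg hf.lead, eventually_ge_atTop 1] with m hm hm1
  have hmR : (1 : ℝ) ≤ m := by exact_mod_cast hm1
  have h1 : (m : ℝ) ≤ (m : ℝ) ^ f.natDegree := le_self_pow₀ hmR hf.deg.ne'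
  have h2 : (m : ℝ) / 2 ≤ ((f.eval (m : ℤ) : ℤ) : ℝ) := by linarith [hm.1]
  have h3 : ((f.eval (m : ℤ) : ℤ) : ℝ) ≤ ((f.eval (m : ℤ)).natAbs : ℝ) := by
    have h0 : (f.eval (m : ℤ) : ℤ) ≤ ((f.eval (m : ℤ)).natAbs : ℤ) := Int.le_natAbs
    have h0' : ((f.eval (m : ℤ) : ℤ) : ℝ) ≤ (((f.eval (m : ℤ)).natAbs : ℤ) : ℝ) := Int.cast_le.2 h0
    rwa [Int.cast_natCast] at h0'
  have h4 : ((m / 2 : ℕ) : ℝ) ≤ (m : ℝ) / 2 := Nat.cast_div_le
  have h5 : ((m / 2 : ℕ) : ℝ) ≤ ((f.eval (m : ℤ)).natAbs : ℝ) := by linarith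
  exact_mod_cast h5

theorem z_top (z : ℕ → ℕ) (hz : Limit z) : Tendsto z atTop atTop := by
  rw [tendsto_atTop]
  intro M
  have hV := V_pos M
  filter_upwards [hz.2.eventually_lt_const (show (1 : ℝ) < 2 by norm_num), log_top.eventually_ge_atTop (2 / V M)] with n h2 h3
  by_contra hcon
  push Not at hcon
  have h4 : V M ≤ V (z n) := V_anti hcon.le
  have h5 : V M * (2 / V M) ≤ V (z n) * Real.log n := by
    have : 0 ≤ 2 / V M := by positivity
    have hz0 := V_pos (z n)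
    exact mul_le_mul h4 h3 this hz0.le
  rw [mul_div_cancel₀ _ hV.ne'] at h5
  linarith

/-- the large places are in the allowed classes -/
theorem allowed_ev (z : ℕ → ℕ) (hz : Limit z) (c : ℝ) (hc : 1 < c) (b : ℕ → ℕ) (F : Finset ℤ[X]) (hF : ∀ f ∈ F, GP f)
    (q : ℕ) (hq : 0 < q) : ∃ M0, ∀ m ∈ PlA (RS z (WW c) b) F, M0 ≤ m → m % q ∈ AlF F q := by
  have hW : Tendsto (WW c) atTop atTop := by
    have h := WW_top c (by linarith) (fun x => x) 1 one_pos (by
      refine (tendsto_const_nhds (x := (1 : ℝ))).congr' ?_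
      filter_upwards [log_top.eventually_ge_atTop 1] with x hx
      rw [div_self (by linarith)])
    exact h
  obtain ⟨V0, hV0⟩ := eventually_atTop.1 (((z_top z hz).eventually_ge_atTop q).and (hW.eventually_ge_atTop q))
  obtain ⟨M1, hM1⟩ := eventually_atTop.1 ((Finset.eventually_all F).2 fun f hf => val_large (hF f hf))
  refine ⟨max M1 (2 * V0), fun m hm hmM => ?_⟩
  rw [mem_AlF, alw_iff]
  refine ⟨Nat.mod_lt _ hq, fun p hp hpq f hf hd => ?_⟩
  have h1 := hM1 m ((le_max_left _ _).trans hmM) f hf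
  have h2 : 2 * V0 ≤ m := (le_max_right _ _).trans hmM
  have h3 : V0 ≤ (f.eval (m : ℤ)).natAbs := by omega
  have h4 := hV0 _ h3
  have h5 := hm.2 f hf
  have hpq' : p ≤ q := Nat.le_of_dvd hq hpq
  have h6 := h5.2 p (hpq'.trans h4.1) hp
  rw [if_pos (hpq'.trans h4.2)] at h6
  apply h6
  have h7 : (p : ℤ) ∣ (m : ℤ) - ((m % q : ℕ) : ℤ) := by
    refine (Int.natCast_dvd_natCast.2 hpq).trans ?_
    refine ⟨(m / q : ℕ), ?_⟩
    have := Nat.div_add_mod m q
    push_cast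
    have h8 : (m : ℤ) = q * (m / q : ℕ) + (m % q : ℕ) := by exact_mod_cast this.symm
    push_cast at h8
    linarith
  have h8 : (p : ℤ) ∣ f.eval (m : ℤ) - f.eval ((m % q : ℕ) : ℤ) := h7.trans (sub_dvd_eval_sub _ _ f)
  have h9 : (p : ℤ) ∣ f.eval (m : ℤ) := by
    have := dvd_add h8 hd
    simpa using this
  exact Nat.mod_eq_zero_of_dvd (Int.natCast_dvd.1 h9)

/-- the count of a system, with the unit -/
theorem cnt_un (z : ℕ → ℕ) (hz : Limit z) (c : ℝ) (hc : 1 < c) (b : ℕ → ℕ) (hOK : Pool.Agent.H559.HY.OK z (WW c) b)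
    (F : Finset ℤ[X]) (hF : ∀ f ∈ F, GP f) (K : ℝ) (hK : Tendsto (CF F) atTop (𝓝 K)) (hK0 : 0 < K) :
    Tendsto (fun y : ℕ => (cntF (RS z (WW c) b) F y : ℝ) * ((∏ f ∈ F, (f.natDegree : ℝ)) / K * Real.log y ^ F.card) / y)
      atTop (𝓝 1) := by
  have h1 := bh z hz c hc b hOK F (sys_of F hF) K hK
  have h2 : Tendsto (fun x : ℕ => ∏ f ∈ F, (Real.log |((f.eval (x : ℤ) : ℤ) : ℝ)| / Real.log x)) atTop
      (𝓝 (∏ f ∈ F, (f.natDegree : ℝ))) := by
    refine tendsto_finsetProd _ fun f hf => ?_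
    refine (log_val f (hF f hf).deg (hF f hf).lead).congr fun x => ?_
    rw [Real.log_abs]
  have hD0 : 0 < ∏ f ∈ F, (f.natDegree : ℝ) := prod_pos fun f hf => by exact_mod_cast (hF f hf).deg
  have h3 := (h1.div h2 hD0.ne').mul (tendsto_const_nhds (x := (∏ f ∈ F, (f.natDegree : ℝ)) / K))
  have e : K / (∏ f ∈ F, (f.natDegree : ℝ)) * ((∏ f ∈ F, (f.natDegree : ℝ)) / K) = 1 := by
    field_simp
  rw [e] at h3
  refine h3.congr' ?_
  have hne : ∀ᶠ x : ℕ in atTop, 0 < ∏ f ∈ F, (Real.log |((f.eval (x : ℤ) : ℤ) : ℝ)| / Real.log x) :=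
    h2.eventually_const_lt hD0
  filter_upwards [log_top.eventually_ge_atTop 1, hne] with x hx hx2
  simp only [Pi.div_apply]
  have hL : Real.log (x : ℝ) ≠ 0 := by linarith
  rw [prod_div_distrib, prod_const] at hx2 ⊢
  have hP : (∏ f ∈ F, Real.log |((f.eval (x : ℤ) : ℤ) : ℝ)|) ≠ 0 := by
    intro h0
    rw [h0, zero_div] at hx2
    exact lt_irrefl _ hx2
  field_simp

end Pool.Agent.H531.LO
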