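import Pool.Agent.H531.LO.Asm

set_option autoImplicit false

/-!
# The data of a system
-/

open Finset Filter Topology Polynomial

namespace Pool.Agent.H531.LO

open Pool.Agent.H559.PV (GP un pl law_win sys_of un_eq)
open Pool.Agent.H559.HY (omF CF RS WW cntF bh log_val growth cut_WW WW_mono WW_top div_lim)
open Pool.Agent.H559.BS (Limit log_top)

/-- the count in a class -/
theorem cnt_sub (S : Set ℕ) (F : Finset ℤ[X]) {q : ℕ} (hq : 0 < q) (a x : ℕ) [DecidablePred fun m => m ∈ PlA S F] :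
    cntF S (sub F q a) x = ((Ioc 0 x).filter fun n => q * n + a ∈ PlA S F).card := by
  classical
  unfold cntF
  rw [← Set.ncard_coe_finset]
  congr 1
  ext n
  rw [mem_coe, mem_filter, mem_Ioc]
  simp only [Set.mem_ofPred_eq, PlA, sub, mem_image]
  constructor
  · rintro ⟨h1, h2, h3⟩
    refine ⟨⟨h1, h2⟩, ?_, fun f hf => ?_⟩
    · have : 1 * 1 ≤ q * n := Nat.mul_le_mul hq h1
      omega
    · have h4 := h3 _ ⟨f, hf, rfl⟩
      rw [lin_eval] at h4
      push_cast
      exact h4
  · rintro ⟨⟨h1, h2⟩, h3, h4⟩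
    refine ⟨h1, h2, ?_⟩
    rintro g ⟨f, hf, rfl⟩
    rw [lin_eval]
    have h5 := h4 f hf
    push_cast at h5
    exact h5

theorem cnt_two (S : Set ℕ) (F : Finset ℤ[X]) {q : ℕ} (hq : 0 < q) (M0 : ℕ)
    (hM : ∀ m ∈ PlA S F, M0 ≤ m → m % q ∈ AlF F q) (y : ℕ) :
    cntF S F y ≤ ∑ a ∈ AlF F q, cntF S (sub F q a) (y / q) + (q + M0) ∧
      ∑ a ∈ AlF F q, cntF S (sub F q a) (y / q) ≤ cntF S F y + q := by
  classical
  have e1 : cntF S F y = ((Ioc 0 y).filter fun m => m ∈ PlA S F).card := by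
    unfold cntF
    rw [← Set.ncard_coe_finset]
    congr 1
    ext n
    rw [mem_coe, mem_filter, mem_Ioc]
    simp only [Set.mem_ofPred_eq, PlA]
    constructor
    · rintro ⟨h1, h2, h3⟩
      exact ⟨⟨h1, h2⟩, h1, h3⟩
    · rintro ⟨⟨h1, h2⟩, -, h3⟩
      exact ⟨h1, h2, h3⟩
  set T : Finset (ℕ × ℕ) := (AlF F q ×ˢ Ioc 0 (y / q)).filter fun v => q * v.2 + v.1 ∈ PlA S F with hT
  have e2 : ∑ a ∈ AlF F q, cntF S (sub F q a) (y / q) = T.card := by
    rw [hT, card_filter, sum_product]
    refine sum_congr rfl fun a _ => ?_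
    rw [cnt_sub S F hq a, card_filter]
  rw [e1, e2]
  constructor
  · have hsub : ((Ioc 0 y).filter fun m => m ∈ PlA S F) ⊆ T.image (fun v => q * v.2 + v.1) ∪ range (q + M0) := by
      intro m hm
      rw [mem_filter, mem_Ioc] at hm
      rw [mem_union, mem_range]
      rcases lt_or_ge m (q + M0) with h | h
      · exact Or.inr h
      · refine Or.inl (mem_image.2 ⟨(m % q, m / q), ?_, Nat.div_add_mod m q⟩)
        rw [hT, mem_filter, mem_product, mem_Ioc]
        refine ⟨⟨hM m hm.2 (by omega), Nat.div_pos (by omega) hq, Nat.div_le_div_right hm.1.2⟩, ?_⟩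
        simp only
        rw [Nat.div_add_mod]
        exact hm.2
    have h1 := (card_le_card hsub).trans (card_union_le _ _)
    rw [card_range] at h1
    exact h1.trans (by have := card_image_le (s := T) (f := fun v : ℕ × ℕ => q * v.2 + v.1); omega)
  · have hinj : Set.InjOn (fun v : ℕ × ℕ => q * v.2 + v.1) (T : Set (ℕ × ℕ)) := by
      intro v hv w hw h
      rw [mem_coe, hT, mem_filter, mem_product, mem_AlF] at hv hw
      simp only at h
      have h1 : v.1 = w.1 := by
        have h2 := congrArg (· % q) h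
        simp only [Nat.mul_add_mod] at h2
        rwa [Nat.mod_eq_of_lt hv.1.1.1, Nat.mod_eq_of_lt hw.1.1.1] at h2
      have h2 : v.2 = w.2 := by
        rw [h1] at h
        exact Nat.eq_of_mul_eq_mul_left hq (by omega)
      exact Prod.ext h1 h2
    rw [← card_image_of_injOn hinj]
    have hsub : T.image (fun v : ℕ × ℕ => q * v.2 + v.1) ⊆ ((Ioc 0 y).filter fun m => m ∈ PlA S F) ∪ Ioc y (y + q) := by
      intro m hm
      rw [mem_image] at hm
      obtain ⟨v, hv, rfl⟩ := hm
      rw [hT, mem_filter, mem_product, mem_AlF, mem_Ioc] at hv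
      have h1 : q * v.2 ≤ y := (Nat.mul_le_mul_left q hv.1.2.2).trans (Nat.mul_div_le y q)
      rw [mem_union, mem_filter, mem_Ioc, mem_Ioc]
      rcases le_or_gt (q * v.2 + v.1) y with h | h
      · exact Or.inl ⟨⟨hv.2.1, h⟩, hv.2⟩
      · exact Or.inr ⟨h, by have := hv.1.1.1; omega⟩
    have h1 := (card_le_card hsub).trans (card_union_le _ _)
    rw [Nat.card_Ioc] at h1
    omega

end Pool.Agent.H531.LO
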