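import Pool.Agent.H531.LO.Asm2

set_option autoImplicit false

/-!
# The laws of a system
-/

open Finset Filter Topology Polynomial

namespace Pool.Agent.H531.LO

open Pool.Agent.H559.PV (GP un pl law_win sys_of un_eq OK_of CF_conv')
open Pool.Agent.H559.HY (omF CF RS WW cntF bh log_val growth cut_WW WW_mono WW_top div_lim)
open Pool.Agent.H559.BS (Limit log_top)

theorem Nw_pl (S : Set ℕ) (F : Finset ℤ[X]) {q : ℕ} (hq : 0 < q) (a : ℕ) (lo hi : ℝ) (hlo : 0 ≤ lo) (n : ℕ) (hn : 1 ≤ n) :
    Nw (PlA S F) q a lo hi n = pl S (sub F q a) lo hi n := by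
  unfold Nw pl
  congr 1
  ext X
  simp only [Set.mem_ofPred_eq, PlA, sub, mem_image]
  refine and_congr_right fun h1 => and_congr_right fun _ => ?_
  have hX : 1 ≤ X := by
    have h2 : (1 : ℝ) ≤ n := by exact_mod_cast hn
    have h3 : (1 : ℝ) < X := by linarith
    exact_mod_cast h3.le
  constructor
  · rintro ⟨-, h4⟩
    rintro g ⟨f, hf, rfl⟩
    rw [lin_eval]
    have h5 := h4 f hf
    push_cast at h5
    exact h5
  · intro h3
    refine ⟨?_, fun f hf => ?_⟩
    · have : 1 * 1 ≤ q * X := Nat.mul_le_mul hq hX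
      omega
    · have h4 := h3 _ ⟨f, hf, rfl⟩
      rw [lin_eval] at h4
      push_cast
      exact h4

/-- the power of the logarithm is small -/
theorem logpow_small (C : ℝ) (k : ℕ) : Tendsto (fun x : ℕ => C * Real.log x ^ k / x) atTop (𝓝 0) := by
  have h2 : (fun x : ℝ => Real.log x ^ k) =o[atTop] fun x => x ^ (1 : ℝ) := by
    have := isLittleO_log_rpow_rpow_atTop (s := 1) (k : ℝ) (by norm_num)
    simpa using this
  have h3 := ((h2.tendsto_div_nhds_zero).comp tendsto_natCast_atTop_atTop).const_mul C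
  rw [mul_zero] at h3
  refine h3.congr fun x => ?_
  simp only [Function.comp_apply, Real.rpow_one]
  ring

/-- **The data of a system.** -/
theorem data (z : ℕ → ℕ) (hz : Limit z) (c : ℝ) (hc : 1 < c) (b : ℕ → ℕ) (hOK : Pool.Agent.H559.PV.OK z (WW c) b)
    (F : Finset ℤ[X]) (hF : ∀ f ∈ F, GP f) (hne : F.Nonempty) (hom : ∀ p : ℕ, p.Prime → omF F p < p)
    (K : ℝ) (hK : Tendsto (CF F) atTop (𝓝 K)) (hK0 : 0 < K) (q : ℕ) (hq : 0 < q) :
    ∃ U : ℕ → ℝ, Data (PlA (RS z (WW c) b) F) q (AlF F q) U ∧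
      Tendsto (fun y : ℕ => un F K y / U (y / q)) atTop (𝓝 (q / (AlF F q).card)) ∧
      Tendsto (fun y : ℕ => (ix (PlA (RS z (WW c) b) F) (y + 1) : ℝ) * un F K y / y) atTop (𝓝 1) := by
  classical
  set S := RS z (WW c) b with hS
  have hOK' := OK_of z (WW c) b hOK
  have hD0 : 0 < ∏ f ∈ F, (f.natDegree : ℝ) := prod_pos fun f hf => by exact_mod_cast (hF f hf).deg
  have hk : F.card ≠ 0 := hne.card_pos.ne'
  -- the count
  have hN : Tendsto (fun y : ℕ => (cntF S F y : ℝ) * un F K y / y) atTop (𝓝 1) := by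
    have := cnt_un z hz c hc b hOK' F hF K hK hK0
    simp only [un_eq]
    exact this
  have hT : Tendsto (fun y : ℕ => (ix (PlA S F) (y + 1) : ℝ) * un F K y / y) atTop (𝓝 1) := by
    refine hN.congr fun y => ?_
    rw [ix_cnt]
  have hunx : Tendsto (fun y : ℕ => un F K y / y) atTop (𝓝 0) := by
    simp only [un_eq]
    exact logpow_small _ _
  -- infinitely many places
  have hinf : (PlA S F).Infinite := by
    intro hfin
    have hbd : ∀ y : ℕ, (cntF S F y : ℝ) ≤ (PlA S F).ncard := by
      intro y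
      have : cntF S F y ≤ (PlA S F).ncard := by
        unfold cntF
        refine Set.ncard_le_ncard ?_ hfin
        rintro n ⟨h1, -, h3⟩
        exact ⟨h1, h3⟩
      exact_mod_cast this
    have h1 := hunx.const_mul (((PlA S F).ncard : ℕ) : ℝ)
    rw [mul_zero] at h1
    have h2 : Tendsto (fun y : ℕ => (cntF S F y : ℝ) * un F K y / y) atTop (𝓝 0) := by
      refine squeeze_zero' ?_ ?_ h1
      · filter_upwards [eventually_ge_atTop 1] with y hy
        rw [un_eq]
        have : 0 ≤ Real.log (y : ℝ) := Real.log_natCast_nonneg y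
        positivity
      · filter_upwards [eventually_ge_atTop 1] with y hy
        rw [un_eq]
        have : 0 ≤ Real.log (y : ℝ) := Real.log_natCast_nonneg y
        have h3 := hbd y
        rw [mul_div_assoc]
        gcongr
    exact absurd (tendsto_nhds_unique h2 hN) (by norm_num)
  obtain ⟨M0, hM0⟩ := allowed_ev z hz c hc b F hF q hq
  have hAlne : (AlF F q).Nonempty := by
    obtain ⟨m, hm1, hm2⟩ := hinf.exists_gt M0
    exact ⟨_, hM0 m hm1 hm2.le⟩
  obtain ⟨a0, ha0⟩ := hAlne
  have hGPs : ∀ a ∈ AlF F q, ∀ g ∈ sub F q a, GP g := by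
    intro a ha g hg
    unfold sub at hg
    rw [mem_image] at hg
    obtain ⟨f, hf, rfl⟩ := hg
    exact sub_GP (hF f hf) hq a fun p hp hpq => (alw_iff F q a).1 (mem_AlF.1 ha).2 p hp hpq f hf
  obtain ⟨K', hK', hK'0⟩ := CF_conv' (sub F q a0) (sys_of _ (hGPs a0 ha0))
  replace hK'0 := hK'0 fun p hp => om_lt F hq a0 (mem_AlF.1 ha0).2 hom p hp
  have hKa : ∀ a ∈ AlF F q, Tendsto (CF (sub F q a)) atTop (𝓝 K') := by
    intro a ha
    rw [CF_sub F hq a a0 (mem_AlF.1 ha).2 (mem_AlF.1 ha0).2]
    exact hK'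
  set U : ℕ → ℝ := fun x => (∏ f ∈ F, (f.natDegree : ℝ)) / K' * Real.log x ^ F.card with hU
  have hUa : ∀ a, ∀ x : ℕ, un (sub F q a) K' x = U x := by
    intro a x
    rw [un_eq, sub_card F hq, sub_prod F hq]
    simp only [sub_deg hq, hU]
  have hNa : ∀ a ∈ AlF F q, Tendsto (fun x : ℕ => (cntF S (sub F q a) x : ℝ) * U x / x) atTop (𝓝 1) := by
    intro a ha
    have := cnt_un z hz c hc b hOK' (sub F q a) (hGPs a ha) K' (hKa a ha) hK'0
    refine this.congr fun x => ?_
    rw [← un_eq, hUa]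
  have hUtop : Tendsto U atTop atTop := by
    have h1 : Tendsto (fun x : ℕ => Real.log (x : ℝ) ^ F.card) atTop atTop := (tendsto_pow_atTop hk).comp log_top
    exact h1.const_mul_atTop (by positivity)
  have hUx : Tendsto (fun x : ℕ => U x / x) atTop (𝓝 0) := logpow_small _ _
  refine ⟨U, ⟨hinf, hq, fun a ha => (mem_AlF.1 ha).1, ⟨a0, ha0⟩, ⟨M0, hM0⟩, hUtop, hUx, ?_⟩, ?_, hT⟩
  · intro η hη L ρ
    set κ := {a // a ∈ AlF F q} × Fin (L + 1) with hκ
    set e : Fin (Fintype.card κ) ≃ κ := (Fintype.equivFin κ).symm with he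
    have key := law_win z hz c hc b hOK (Fintype.card κ) (fun i => sub F q (e i).1) (fun i => hGPs _ (e i).1.2)
      (fun i => by
        unfold sub
        exact hne.image _) (fun _ => K') (fun i => hKa _ (e i).1.2) (fun _ => hK'0) (fun _ _ _ => rfl)
      (fun i => ((e i).2 : ℕ) * η) (fun i => (((e i).2 : ℕ) + 1) * η)
      (fun i => ⟨by positivity, by nlinarith⟩) (fun i j hij => ?_) (fun i => ρ (e i).1 (e i).2)
    · have e1 : (∏ i, (Real.exp (-((((e i).2 : ℕ) + 1) * η - ((e i).2 : ℕ) * η)) *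
          ((((e i).2 : ℕ) + 1) * η - ((e i).2 : ℕ) * η) ^ ρ (e i).1 (e i).2 / (ρ (e i).1 (e i).2).factorial)) =
          ∏ a ∈ AlF F q, ∏ l ∈ range (L + 1), (Real.exp (-η) * η ^ ρ a l / (ρ a l).factorial) := by
        have e2 : ∀ i, Real.exp (-((((e i).2 : ℕ) + 1) * η - ((e i).2 : ℕ) * η)) *
          ((((e i).2 : ℕ) + 1) * η - ((e i).2 : ℕ) * η) ^ ρ (e i).1 (e i).2 / (ρ (e i).1 (e i).2).factorial =
          (fun v : κ => Real.exp (-η) * η ^ ρ v.1 v.2 / (ρ v.1 v.2).factorial) (e i) := by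
          intro i
          have : (((e i).2 : ℕ) + 1 : ℝ) * η - ((e i).2 : ℕ) * η = η := by ring
          rw [this]
        rw [prod_congr rfl fun i _ => e2 i, Equiv.prod_comp e
          (fun v : κ => Real.exp (-η) * η ^ ρ v.1 v.2 / (ρ v.1 v.2).factorial), Fintype.prod_prod_type]
        rw [← prod_coe_sort (AlF F q) (fun a => ∏ l ∈ range (L + 1), (Real.exp (-η) * η ^ ρ a l / (ρ a l).factorial))]
        refine Fintype.prod_congr _ _ fun a => ?_
        rw [prod_range]
      rw [e1] at key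
      refine key.congr fun x => ?_
      congr 2
      congr 1
      ext n
      simp only [Set.mem_ofPred_eq]
      refine and_congr_right fun hn => and_congr_right fun _ => ?_
      have hU0 : 0 ≤ U x := by
        simp only [hU]
        have : 0 ≤ Real.log (x : ℝ) := Real.log_natCast_nonneg x
        positivity
      constructor
      · intro h a ha l hl
        have h1 := h (e.symm (⟨a, ha⟩, ⟨l, by omega⟩))
        simp only [Equiv.apply_symm_apply, hUa] at h1
        rw [Nw_pl S F hq a _ _ (by positivity) n hn]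
        rw [← h1]
        congr 1 <;> ring
      · intro h i
        have h1 := h _ (e i).1.2 _ (by have := (e i).2.2; omega : ((e i).2 : ℕ) ≤ L)
        rw [Nw_pl S F hq _ _ _ (by positivity) n hn] at h1
        rw [hUa, ← h1]
        congr 1 <;> ring
    · by_cases h1 : (e i).1 = (e j).1
      · refine Or.inl ⟨by rw [h1], ?_⟩
        have h2 : ((e i).2 : ℕ) ≠ (e j).2 := by
          intro h2
          apply hij
          apply e.injective
          exact Prod.ext h1 (Fin.ext h2)
        rcases lt_or_gt_of_ne h2 with h3 | h3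
        · left
          have h4 : (((e i).2 : ℕ) : ℝ) + 1 ≤ ((e j).2 : ℕ) := by exact_mod_cast h3
          nlinarith
        · right
          have h4 : (((e j).2 : ℕ) : ℝ) + 1 ≤ ((e i).2 : ℕ) := by exact_mod_cast h3
          nlinarith
      · refine Or.inr fun t => ?_
        exact sub_not_translate F hF hne hq _ _ (mem_AlF.1 (e i).1.2).1 (mem_AlF.1 (e j).1.2).1
          (fun h2 => h1 (Subtype.ext h2)) t
  · -- the ratio of the units
    set d : ℕ := (AlF F q).card with hd
    have hd0 : (0 : ℝ) < d := by exact_mod_cast (card_pos.2 ⟨a0, ha0⟩)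
    have hdiv : Tendsto (fun y : ℕ => y / q) atTop atTop := Nat.tendsto_div_const_atTop (by omega)
    -- the sum of the classes
    have h1 : Tendsto (fun y : ℕ => (∑ a ∈ AlF F q, (cntF S (sub F q a) (y / q) : ℝ)) * (U (y / q) / ((y / q : ℕ) : ℝ)))
        atTop (𝓝 d) := by
      have h2 : Tendsto (fun y : ℕ => ∑ a ∈ AlF F q, (cntF S (sub F q a) (y / q) : ℝ) * U (y / q) / ((y / q : ℕ) : ℝ))
          atTop (𝓝 (∑ a ∈ AlF F q, (1 : ℝ))) := tendsto_finsetSum _ fun a ha => (hNa a ha).comp hdiv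
      rw [sum_const, nsmul_eq_mul, mul_one] at h2
      refine h2.congr fun y => ?_
      rw [sum_mul]
      exact sum_congr rfl fun a _ => by ring
    have h3 : Tendsto (fun y : ℕ => (cntF S F y : ℝ) * (U (y / q) / ((y / q : ℕ) : ℝ))) atTop (𝓝 d) := by
      have h4 : Tendsto (fun y : ℕ => ((cntF S F y : ℝ) - ∑ a ∈ AlF F q, (cntF S (sub F q a) (y / q) : ℝ)) *
          (U (y / q) / ((y / q : ℕ) : ℝ))) atTop (𝓝 0) := by
        have h5 := (hUx.comp hdiv).const_mul ((q + M0 : ℕ) : ℝ)
        rw [mul_zero] at h5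
        refine squeeze_zero_norm (fun y => ?_) h5
        rw [norm_mul, Real.norm_eq_abs, Real.norm_eq_abs]
        have h6 := cnt_two S F hq M0 hM0 y
        have h7 : (cntF S F y : ℝ) ≤ ∑ a ∈ AlF F q, (cntF S (sub F q a) (y / q) : ℝ) + (q + M0) := by exact_mod_cast h6.1
        have h8 : ∑ a ∈ AlF F q, (cntF S (sub F q a) (y / q) : ℝ) ≤ cntF S F y + q := by exact_mod_cast h6.2
        have h9 : 0 ≤ U (y / q) / ((y / q : ℕ) : ℝ) := by
          simp only [hU]
          have : 0 ≤ Real.log ((y / q : ℕ) : ℝ) := Real.log_natCast_nonneg _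
          positivity
        rw [abs_of_nonneg h9]
        simp only [Function.comp_apply]
        refine mul_le_mul_of_nonneg_right ?_ h9
        rw [abs_le]
        push_cast
        have hM : (0 : ℝ) ≤ M0 := Nat.cast_nonneg _
        constructor <;> linarith
      have h5 := h4.add h1
      rw [zero_add] at h5
      refine h5.congr fun y => ?_
      ring
    -- `y / (y / q) → q`
    have h6 : Tendsto (fun y : ℕ => (y : ℝ) / ((y / q : ℕ) : ℝ)) atTop (𝓝 q) := by
      have hq0 : (0 : ℝ) < q := by exact_mod_cast hq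
      have h7 : Tendsto (fun y : ℕ => (q : ℝ) + q / ((y / q : ℕ) : ℝ)) atTop (𝓝 (q + 0)) :=
        tendsto_const_nhds.add (tendsto_const_nhds.div_atTop (tendsto_natCast_atTop_atTop.comp hdiv))
      rw [add_zero] at h7
      refine tendsto_of_tendsto_of_tendsto_of_le_of_le' tendsto_const_nhds h7 ?_ ?_
      · filter_upwards [hdiv.eventually_ge_atTop 1] with y hy
        have h8 : (0 : ℝ) < ((y / q : ℕ) : ℝ) := by exact_mod_cast hy
        rw [le_div_iff₀ h8]
        exact_mod_cast Nat.mul_div_le y q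
      · filter_upwards [hdiv.eventually_ge_atTop 1] with y hy
        have h8 : (0 : ℝ) < ((y / q : ℕ) : ℝ) := by exact_mod_cast hy
        rw [div_le_iff₀ h8, add_mul, div_mul_cancel₀ _ h8.ne']
        have h9 : y ≤ q * (y / q) + q := by
          have h10 := Nat.div_add_mod y q
          have h11 := Nat.mod_lt y hq
          omega
        exact_mod_cast h9
    have h7 := (hN.mul h6).div h3 hd0.ne'
    rw [one_mul] at h7
    refine h7.congr' ?_
    filter_upwards [hdiv.eventually_ge_atTop 1, eventually_ge_atTop 1, h3.eventually_const_lt hd0] with y hy hy1 hy3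
    simp only [Pi.div_apply]
    have h8 : ((y / q : ℕ) : ℝ) ≠ 0 := by
      have : (0 : ℝ) < ((y / q : ℕ) : ℝ) := by exact_mod_cast hy
      exact this.ne'
    have h9 : (y : ℝ) ≠ 0 := by
      have : (0 : ℝ) < (y : ℝ) := by exact_mod_cast hy1
      exact this.ne'
    have h10 : (cntF S F y : ℝ) ≠ 0 := by
      intro h0
      rw [h0, zero_mul] at hy3
      exact lt_irrefl _ hy3
    have h11 : U (y / q) ≠ 0 := by
      intro h0
      rw [h0, zero_div, mul_zero] at hy3
      exact lt_irrefl _ hy3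
    field_simp

end Pool.Agent.H531.LO
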