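import Pool.Agent.H531.LO.Win

set_option autoImplicit false

/-!
# Counting strings by means of windows
-/

open Finset Filter Topology

namespace Pool.Agent.H531.LO

/-- the residues and the gaps of a string of `r + 1` consecutive elements -/
def Str (A : Set ℕ) (q : ℕ) {r : ℕ} (b : ℕ → ℕ) (s t : Fin r → ℝ) (Q : ℝ) (i : ℕ) : Prop :=
  (∀ j ≤ r, el A (i + j) % q = b j) ∧
    ∀ j : Fin r, s j * Q < (el A (i + j + 1) : ℝ) - el A (i + j) ∧ (el A (i + j + 1) : ℝ) - el A (i + j) ≤ t j * Q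

open Classical in
/-- the strings which begin at most at `y` -/
noncomputable def Zs (A : Set ℕ) (q : ℕ) {r : ℕ} (b : ℕ → ℕ) (s t : Fin r → ℝ) (Q : ℝ) (y : ℕ) : Finset ℕ :=
  (range (ix A (y + 1))).filter fun i => Str A q b s t Q i

variable {A : Set ℕ} {q : ℕ} {Al : Finset ℕ} {r : ℕ}

/-- the event determines the configuration -/
theorem ev_unique (hq : 0 < q) (hAl : ∀ a ∈ Al, a < q) (M0 : ℕ) (hM : ∀ m ∈ A, M0 ≤ m → m % q ∈ Al) (b : ℕ → ℕ)
    (hb : ∀ j ≤ r, b j ∈ Al) (g g' : Fin r → ℕ) (hg : ∀ i, 1 ≤ g i) (hg' : ∀ i, 1 ≤ g' i) (w : ℝ) (hw : 0 < w) (n : ℕ)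
    (hn : M0 ≤ n) (hE : Ev A q Al b g w n) (hE' : Ev A q Al b g' w n) : g = g' := by
  obtain ⟨X, hX1, hX2, hX3⟩ := ev_string hq hAl M0 hM b hb g hg w hw n hn hE
  obtain ⟨X', hX1', hX2', hX3'⟩ := ev_string hq hAl M0 hM b hb g' hg' w hw n hn hE'
  have h0 : X' 0 = X 0 := by
    have h1 := hX1' 0 (Nat.zero_le _)
    rw [ls_zero] at h1
    refine hX2 0 (Nat.zero_le _) (X' 0) ?_ ?_ h1.2.2
    · rw [ls_zero]
      exact h1.1
    · rw [ls_zero]
      exact h1.2.1
  have hXX : ∀ j ≤ r, X' j = X j := by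
    intro j hj
    have h1 := hX3 j hj
    have h2 := hX3' j hj
    rw [h0, h1] at h2
    have h3 : q * X j = q * X' j := by omega
    exact (Nat.eq_of_mul_eq_mul_left hq h3).symm
  have hls : ∀ j ≤ r, ls g' j = ls g j := by
    intro j hj
    have h1 := hX1 j hj
    have h2 := hX1' j hj
    rw [hXX j hj] at h2
    rcases lt_trichotomy (ls g' j) (ls g j) with h3 | h3 | h3
    · have h4 : (ls g' j : ℝ) + 1 ≤ ls g j := by exact_mod_cast h3
      have h5 : ((ls g' j : ℝ) + 1) * w ≤ ls g j * w := by gcongr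
      linarith [h1.1, h2.2.1]
    · exact h3
    · have h4 : (ls g j : ℝ) + 1 ≤ ls g' j := by exact_mod_cast h3
      have h5 : ((ls g j : ℝ) + 1) * w ≤ ls g' j * w := by gcongr
      linarith [h2.1, h1.2.1]
  funext i
  have h1 := ls_succ g i.val i.2
  have h2 := ls_succ g' i.val i.2
  rw [hls (i.val + 1) i.2, hls i.val i.2.le] at h2
  have : g ⟨i.val, i.2⟩ = g' ⟨i.val, i.2⟩ := by omega
  exact this

open Classical in
/-- the positions of the event -/
noncomputable def Es (A : Set ℕ) (q : ℕ) (Al : Finset ℕ) {r : ℕ} (b : ℕ → ℕ) (g : Fin r → ℕ) (w : ℝ) (x : ℕ) : Finset ℕ :=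
  (Icc 1 x).filter fun n => Ev A q Al b g w n

/-- **Counting strings by means of windows.** -/
theorem count_strings (hA : A.Infinite) (hq : 0 < q) (hAl : ∀ a ∈ Al, a < q) (M0 : ℕ)
    (hM : ∀ m ∈ A, M0 ≤ m → m % q ∈ Al) (b : ℕ → ℕ) (hb : ∀ j ≤ r, b j ∈ Al) (Box : Finset (Fin r → ℕ))
    (hBox : ∀ g ∈ Box, ∀ i, 1 ≤ g i) (w : ℝ) (hw : 0 < w) (s t : Fin r → ℝ) (Q : ℝ)
    (hs : ∀ g ∈ Box, ∀ i, s i * Q + q ≤ q * (((g i : ℝ) - 1) * w))
    (ht : ∀ g ∈ Box, ∀ i, q * (((g i : ℝ) + 1) * w) + q ≤ t i * Q) (x : ℕ) :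
    ∑ g ∈ Box, ((Es A q Al b g w x).card : ℝ) ≤ w * (Zs A q b s t Q (q * x)).card + (Box.card * M0 + (w + 2)) := by
  classical
  have hbq : ∀ j ≤ r, b j < q := fun j hj => hAl _ (hb j hj)
  -- the small positions
  have hA1 : ∀ g ∈ Box, ((Es A q Al b g w x).card : ℝ) ≤
      (((Es A q Al b g w x).filter fun n => M0 ≤ n).card : ℝ) + M0 := by
    intro g _
    have h1 := card_filter_add_card_filter_not (s := Es A q Al b g w x) (fun n => M0 ≤ n)
    have h2 : ((Es A q Al b g w x).filter fun n => ¬ M0 ≤ n).card ≤ M0 := by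
      have h3 : ((Es A q Al b g w x).filter fun n => ¬ M0 ≤ n) ⊆ range M0 := by
        intro n hn
        rw [mem_filter] at hn
        rw [mem_range]
        omega
      calc _ ≤ (range M0).card := card_le_card h3
        _ = M0 := card_range _
    have h4 : (Es A q Al b g w x).card ≤ ((Es A q Al b g w x).filter fun n => M0 ≤ n).card + M0 := by omega
    exact_mod_cast h4
  set B := Box.biUnion fun g => (Es A q Al b g w x).filter fun n => M0 ≤ n with hB
  have hBcard : B.card = ∑ g ∈ Box, ((Es A q Al b g w x).filter fun n => M0 ≤ n).card := by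
    rw [hB]
    refine card_biUnion ?_
    intro g hg g' hg' hne
    rw [Function.onFun, disjoint_left]
    intro n hn hn'
    rw [mem_filter] at hn hn'
    unfold Es at hn hn'
    rw [mem_filter] at hn hn'
    exact hne (ev_unique hq hAl M0 hM b hb g g' (hBox g hg) (hBox g' hg') w hw n hn.2 hn.1.2 hn'.1.2)
  -- the large positions
  set C := B.filter fun n : ℕ => (n : ℝ) + w + 1 ≤ x with hC
  have hBC : (B.card : ℝ) ≤ C.card + (w + 2) := by
    have h1 := card_filter_add_card_filter_not (s := B) (fun n : ℕ => (n : ℝ) + w + 1 ≤ x)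
    have h2 : ((B.filter fun n : ℕ => ¬ (n : ℝ) + w + 1 ≤ x).card : ℝ) ≤ w + 2 := by
      have h3 : (B.filter fun n : ℕ => ¬ (n : ℝ) + w + 1 ≤ x) ⊆ (Ioc (x - (⌊w⌋₊ + 2)) x : Finset ℕ) := by
        intro n hn
        rw [mem_filter, hB, mem_biUnion] at hn
        obtain ⟨⟨g, _, hg⟩, h4⟩ := hn
        rw [mem_filter] at hg
        unfold Es at hg
        rw [mem_filter, mem_Icc] at hg
        have h5 : n ≤ x := hg.1.1.2
        rw [mem_Ioc]
        refine ⟨?_, h5⟩
        by_contra hcon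
        push Not at hcon
        have h6 : 1 ≤ n := hg.1.1.1
        have h7 : n + (⌊w⌋₊ + 2) ≤ x := by omega
        have h8 := Nat.lt_floor_add_one w
        have h9 : (n : ℝ) + (⌊w⌋₊ + 2) ≤ x := by exact_mod_cast h7
        exact h4 (by linarith)
      have h4 := card_le_card h3
      rw [Nat.card_Ioc] at h4
      have h5 : (B.filter fun n : ℕ => ¬ (n : ℝ) + w + 1 ≤ x).card ≤ ⌊w⌋₊ + 2 := by omega
      have h6 : ((B.filter fun n : ℕ => ¬ (n : ℝ) + w + 1 ≤ x).card : ℝ) ≤ ⌊w⌋₊ + 2 := by exact_mod_cast h5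
      have h7 := Nat.floor_le hw.le
      linarith
    have h3 : (B.card : ℝ) = C.card + ((B.filter fun n : ℕ => ¬ (n : ℝ) + w + 1 ≤ x).card : ℝ) := by
      rw [← h1]
      push_cast
      rfl
    linarith
  -- the first elements
  have hdata : ∀ n ∈ C, ∃ X : ℕ, (n : ℝ) < X ∧ (X : ℝ) ≤ n + w ∧ q * X + b 0 ∈ A ∧ (n : ℝ) + w + 1 ≤ x ∧
      Str A q b s t Q (ix A (q * X + b 0)) := by
    intro n hn
    rw [hC, mem_filter, hB, mem_biUnion] at hn
    obtain ⟨⟨g, hg, hgn⟩, hnx⟩ := hn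
    rw [mem_filter] at hgn
    unfold Es at hgn
    rw [mem_filter] at hgn
    obtain ⟨X, hX1, -, hX3⟩ := ev_string hq hAl M0 hM b hb g (hBox g hg) w hw n hgn.2 hgn.1.2
    have h0 := hX1 0 (Nat.zero_le _)
    rw [ls_zero, Nat.cast_zero, zero_mul, add_zero, zero_add, one_mul] at h0
    refine ⟨X 0, h0.1, h0.2.1, h0.2.2, hnx, ?_, ?_⟩
    · intro j hj
      rw [hX3 j hj, Nat.mul_add_mod, Nat.mod_eq_of_lt (hbq j hj)]
    · intro j
      have e1 := hX3 j.val j.2.le
      have e2 := hX3 (j.val + 1) j.2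
      rw [add_assoc, e1, e2]
      have h1 := hX1 j.val j.2.le
      have h2 := hX1 (j.val + 1) j.2
      have h3 := ls_succ g j.val j.2
      have h4 : (ls g (j.val + 1) : ℝ) = ls g j.val + g j := by
        rw [h3]
        push_cast
        rfl
      rw [h4] at h2
      have h5 := hs g hg j
      have h6 := ht g hg j
      have hqR : (0 : ℝ) < q := by exact_mod_cast hq
      have b1 : (b j.val : ℝ) ≤ q := by exact_mod_cast (hbq j.val j.2.le).le
      have b2 : (b (j.val + 1) : ℝ) ≤ q := by exact_mod_cast (hbq (j.val + 1) j.2).le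
      have b1' : (0 : ℝ) ≤ b j.val := Nat.cast_nonneg _
      have b2' : (0 : ℝ) ≤ b (j.val + 1) := Nat.cast_nonneg _
      have d1 : ((g j : ℝ) - 1) * w < (X (j.val + 1) : ℝ) - X j.val := by
        have := h2.1
        have := h1.2.1
        linarith
      have d2 : (X (j.val + 1) : ℝ) - X j.val < ((g j : ℝ) + 1) * w := by
        have := h2.2.1
        have := h1.1
        linarith
      have d3 : (q : ℝ) * (((g j : ℝ) - 1) * w) < q * ((X (j.val + 1) : ℝ) - X j.val) := by gcongr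
      have d4 : (q : ℝ) * ((X (j.val + 1) : ℝ) - X j.val) < q * (((g j : ℝ) + 1) * w) := by gcongr
      push_cast
      constructor
      · linarith
      · linarith
  choose! X hX using hdata
  set φ : ℕ → ℕ := fun n => ix A (q * X n + b 0) with hφ
  have himg : C.image φ ⊆ Zs A q b s t Q (q * x) := by
    intro i hi
    rw [mem_image] at hi
    obtain ⟨n, hn, rfl⟩ := hi
    obtain ⟨h1, h2, h3, h4, h5⟩ := hX n hn
    unfold Zs
    rw [mem_filter, mem_range]
    refine ⟨?_, h5⟩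
    rw [← el_le_iff hA]
    show el A (ix A (q * X n + b 0)) ≤ q * x
    rw [el_ix h3]
    have h6 : (X n : ℝ) + 1 ≤ x := by linarith
    have h7 : X n + 1 ≤ x := by exact_mod_cast h6
    have h8 : q * (X n + 1) ≤ q * x := Nat.mul_le_mul_left _ h7
    have h9 := hbq 0 (Nat.zero_le _)
    rw [mul_add, mul_one] at h8
    omega
  have hfib : ∀ i ∈ C.image φ, (C.filter fun n => φ n = i).card ≤ ⌊w⌋₊ := by
    intro i hi
    rw [mem_image] at hi
    obtain ⟨n0, hn0, rfl⟩ := hi
    have h0 := hX n0 hn0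
    have hsub : (C.filter fun n => φ n = φ n0) ⊆ Ico (X n0 - ⌊w⌋₊) (X n0) := by
      intro n hn
      rw [mem_filter] at hn
      obtain ⟨hn1, hn2⟩ := hn
      have h1 := hX n hn1
      have h2 : q * X n + b 0 = q * X n0 + b 0 := by
        rw [← el_ix h1.2.2.1, ← el_ix h0.2.2.1]
        show el A (φ n) = el A (φ n0)
        rw [hn2]
      have h3 : X n = X n0 := by
        have : q * X n = q * X n0 := by omega
        exact Nat.eq_of_mul_eq_mul_left hq this
      rw [h3] at h1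
      rw [mem_Ico]
      have h4 : n < X n0 := by exact_mod_cast h1.1
      refine ⟨?_, h4⟩
      have h5 : ((X n0 - n : ℕ) : ℝ) ≤ w := by
        rw [Nat.cast_sub h4.le]
        linarith [h1.2.1]
      have h6 : X n0 - n ≤ ⌊w⌋₊ := Nat.le_floor h5
      omega
    have h1 := card_le_card hsub
    rw [Nat.card_Ico] at h1
    omega
  have hCZ : C.card ≤ ⌊w⌋₊ * (Zs A q b s t Q (q * x)).card :=
    (card_le_mul_card_image C _ hfib).trans (Nat.mul_le_mul_left _ (card_le_card himg))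
  have hCZ' : (C.card : ℝ) ≤ w * (Zs A q b s t Q (q * x)).card := by
    have h1 : (C.card : ℝ) ≤ ⌊w⌋₊ * ((Zs A q b s t Q (q * x)).card : ℝ) := by exact_mod_cast hCZ
    have h2 := Nat.floor_le hw.le
    refine h1.trans ?_
    gcongr
  calc ∑ g ∈ Box, ((Es A q Al b g w x).card : ℝ)
      ≤ ∑ g ∈ Box, ((((Es A q Al b g w x).filter fun n => M0 ≤ n).card : ℝ) + M0) := sum_le_sum hA1
    _ = B.card + Box.card * M0 := by
        rw [sum_add_distrib, sum_const, nsmul_eq_mul, hBcard]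
        push_cast
        ring
    _ ≤ w * (Zs A q b s t Q (q * x)).card + (Box.card * M0 + (w + 2)) := by linarith

end Pool.Agent.H531.LO
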