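import Mathlib

set_option autoImplicit false

/-!
# Consecutive elements of a set
-/

open Finset Filter Topology

namespace Pool.Agent.H531.LO

/-- the `i`-th element -/
noncomputable def el (A : Set ℕ) (i : ℕ) : ℕ := Nat.nth (fun n => n ∈ A) i

open Classical in
/-- the index -/
noncomputable def ix (A : Set ℕ) (m : ℕ) : ℕ := Nat.count (fun n => n ∈ A) m

theorem el_ix {A : Set ℕ} {m : ℕ} (hm : m ∈ A) : el A (ix A m) = m := by
  classical
  unfold el ix
  exact Nat.nth_count hm

/-- the next element -/
theorem ix_next {A : Set ℕ} {m m' : ℕ} (hm : m ∈ A) (hlt : m < m')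
    (h : ∀ n, m < n → n < m' → n ∉ A) : ix A m' = ix A m + 1 := by
  classical
  unfold ix
  rw [Nat.count_eq_card_filter_range, Nat.count_eq_card_filter_range]
  have e : (Finset.range m').filter (fun n => n ∈ A) = insert m ((Finset.range m).filter fun n => n ∈ A) := by
    ext n
    simp only [Finset.mem_filter, Finset.mem_range, Finset.mem_insert]
    constructor
    · rintro ⟨hn, hnA⟩
      rcases lt_trichotomy n m with h2 | h2 | h2
      · exact Or.inr ⟨h2, hnA⟩
      · exact Or.inl h2
      · exact absurd hnA (h n h2 hn)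
    · rintro (rfl | ⟨hn, hnA⟩)
      · exact ⟨hlt, hm⟩
      · exact ⟨by omega, hnA⟩
  rw [e, Finset.card_insert_of_notMem (by simp)]

/-- a string of consecutive elements -/
theorem el_string {A : Set ℕ} (r : ℕ) (m : ℕ → ℕ) (hm : ∀ j ≤ r, m j ∈ A) (hlt : ∀ j < r, m j < m (j + 1))
    (h : ∀ j < r, ∀ n, m j < n → n < m (j + 1) → n ∉ A) : ∀ j ≤ r, el A (ix A (m 0) + j) = m j := by
  have hix : ∀ j ≤ r, ix A (m j) = ix A (m 0) + j := by
    intro j
    induction j with
    | zero => intro _; rfl
    | succ j ih =>
      intro hj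
      rw [ix_next (hm j (by omega)) (hlt j (by omega)) (h j (by omega)), ih (by omega)]
      ring
  intro j hj
  rw [← hix j hj, el_ix (hm j hj)]

theorem el_mono {A : Set ℕ} (hA : A.Infinite) : StrictMono (el A) := Nat.nth_strictMono hA

theorem el_mem {A : Set ℕ} (hA : A.Infinite) (i : ℕ) : el A i ∈ A := Nat.nth_mem_of_infinite hA i

theorem ix_el {A : Set ℕ} (hA : A.Infinite) (i : ℕ) : ix A (el A i) = i := by
  classical
  unfold ix el
  exact Nat.count_nth_of_infinite (p := fun n => n ∈ A) hA i

/-- the indices of the elements up to `y` -/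
theorem el_le_iff {A : Set ℕ} (hA : A.Infinite) (i y : ℕ) : el A i ≤ y ↔ i < ix A (y + 1) := by
  classical
  constructor
  · intro h
    rw [← ix_el hA i]
    unfold ix
    exact Nat.count_strict_mono (p := fun n => n ∈ A) (el_mem hA i) (by omega)
  · intro h
    by_contra hcon
    push Not at hcon
    have h1 : ix A (y + 1) ≤ ix A (el A i) := by
      unfold ix
      exact Nat.count_monotone (fun n => n ∈ A) (by omega)
    rw [ix_el hA] at h1
    omega

end Pool.Agent.H531.LO
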