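import Pool.Agent.H531.LO.Part

set_option autoImplicit false

/-!
# The law of the residues and the gaps of consecutive elements
-/

open Finset Filter Topology

namespace Pool.Agent.H531.LO

variable {A : Set ℕ} {q : ℕ} {Al : Finset ℕ} {U u : ℕ → ℝ} {r : ℕ}

open Classical in
/-- the strings with given residues which begin at most at `y` -/
noncomputable def SR (A : Set ℕ) (q : ℕ) {r : ℕ} (β : Fin (r + 1) → ℕ) (y : ℕ) : Finset ℕ :=
  (range (ix A (y + 1))).filter fun i => ∀ j : Fin (r + 1), el A (i + j) % q = β j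

open Classical in
/-- the strings with given residues and gaps -/
noncomputable def SG (A : Set ℕ) (q : ℕ) {r : ℕ} (β : Fin (r + 1) → ℕ) (t : Fin r → ℝ) (Q : ℝ) (y : ℕ) : Finset ℕ :=
  (range (ix A (y + 1))).filter fun i => (∀ j : Fin (r + 1), el A (i + j) % q = β j) ∧
    ∀ j : Fin r, (el A (i + j + 1) : ℝ) - el A (i + j) ≤ t j * Q

open Classical in
/-- short or long gaps -/
noncomputable def SB (A : Set ℕ) (q : ℕ) {r : ℕ} (β : Fin (r + 1) → ℕ) (t : Fin r → ℝ) (σ : Fin r → Bool) (Q : ℝ)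
    (y : ℕ) : Finset ℕ :=
  (range (ix A (y + 1))).filter fun i => (∀ j : Fin (r + 1), el A (i + j) % q = β j) ∧
    ∀ j : Fin r, (σ j = true ↔ (el A (i + j + 1) : ℝ) - el A (i + j) ≤ t j * Q)

/-- extension by zero -/
def ext0 {r : ℕ} (β : Fin (r + 1) → ℕ) (j : ℕ) : ℕ := if h : j < r + 1 then β ⟨j, h⟩ else 0

theorem ext0_mem (β : Fin (r + 1) → ℕ) (hβ : ∀ j, β j ∈ Al) : ∀ j ≤ r, ext0 β j ∈ Al := by
  intro j hj
  unfold ext0
  rw [dif_pos (by omega)]
  exact hβ _

theorem str_res {b : ℕ → ℕ} {s t : Fin r → ℝ} {Q : ℝ} {i : ℕ} (β : Fin (r + 1) → ℕ) (hb : b = ext0 β)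
    (h : Str A q b s t Q i) : ∀ j : Fin (r + 1), el A (i + j) % q = β j := by
  intro j
  have h1 := h.1 j.val (by omega)
  rw [hb] at h1
  unfold ext0 at h1
  rw [dif_pos j.2] at h1
  exact h1

theorem N_pos (hT : Tendsto (fun y : ℕ => (ix A (y + 1) : ℝ) * u y / y) atTop (𝓝 1)) : ∀ᶠ y in atTop, 0 < ix A (y + 1) := by
  filter_upwards [hT.eventually_const_lt one_pos] with y h
  by_contra hcon
  have : ix A (y + 1) = 0 := by omega
  rw [this] at h
  simp at h

theorem sum_str (Al : Finset ℕ) (hne : Al.Nonempty) (r : ℕ) :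
    ∑ _β : Fin (r + 1) → Al, (1 / (Al.card : ℝ)) ^ (r + 1) = 1 := by
  rw [sum_const, card_univ, Fintype.card_fun, Fintype.card_fin, Fintype.card_coe, nsmul_eq_mul]
  push_cast
  have h1 : (Al.card : ℝ) ≠ 0 := by exact_mod_cast hne.card_pos.ne'
  rw [← mul_pow, mul_one_div_cancel h1, one_pow]

/-- **The law of the residues.** -/
theorem law_res (D : Data A q Al U) (hu : Tendsto (fun y : ℕ => u y / U (y / q)) atTop (𝓝 (q / Al.card)))
    (hT : Tendsto (fun y : ℕ => (ix A (y + 1) : ℝ) * u y / y) atTop (𝓝 1)) (β : Fin (r + 1) → ℕ) (hβ : ∀ j, β j ∈ Al) :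
    Tendsto (fun y : ℕ => ((SR A q β y).card : ℝ) / ix A (y + 1)) atTop (𝓝 ((1 / (Al.card : ℝ)) ^ (r + 1))) := by
  classical
  have key := part (κ := Fin (r + 1) → Al) (fun γ y => SR A q (fun j => (γ j : ℕ)) y) (fun y => ix A (y + 1))
    (fun _ => (1 / (Al.card : ℝ)) ^ (r + 1)) (fun γ y => filter_subset _ _) (fun γ γ' hne y => ?_) (N_pos hT)
    (fun γ => ?_) (sum_str Al D.hne r) (fun j => ⟨β j, hβ j⟩)
  · exact key
  · rw [disjoint_left]
    intro i hi hi'
    unfold SR at hi hi'
    rw [mem_filter] at hi hi'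
    apply hne
    funext j
    exact Subtype.ext ((hi.2 j).symm.trans (hi'.2 j))
  · refine LB.sup fun ε hε => ?_
    have hc : Tendsto (fun T : ℝ => (1 / (Al.card : ℝ)) ^ (r + 1) * ∏ _i : Fin r, (Real.exp (-0) - Real.exp (-T))) atTop
        (𝓝 ((1 / (Al.card : ℝ)) ^ (r + 1) * ∏ _i : Fin r, (Real.exp (-0) - 0))) := by
      refine Tendsto.const_mul _ (tendsto_finsetProd _ fun i _ => tendsto_const_nhds.sub ?_)
      exact Real.tendsto_exp_atBot.comp tendsto_neg_atTop_atBot
    have e : (1 / (Al.card : ℝ)) ^ (r + 1) * ∏ _i : Fin r, (Real.exp (-0) - 0) = (1 / (Al.card : ℝ)) ^ (r + 1) := by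
      simp
    rw [e] at hc
    obtain ⟨T, h1, h2⟩ := ((hc.eventually_const_lt (show (1 / (Al.card : ℝ)) ^ (r + 1) - ε <
      (1 / (Al.card : ℝ)) ^ (r + 1) by linarith)).and (eventually_gt_atTop 0)).exists
    refine ⟨_, h1.le, ?_⟩
    have hlow := low_y (r := r) D hu hT (ext0 fun j => (γ j : ℕ)) (ext0_mem _ fun j => (γ j).2) (fun _ => 0)
      (fun _ => T) (fun _ => le_rfl) (fun _ => h2)
    refine hlow.mono (Eventually.of_forall fun y => ?_)
    have hsub : Zs A q (ext0 fun j => (γ j : ℕ)) (fun _ : Fin r => 0) (fun _ => T) (u y) y ⊆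
        SR A q (fun j => (γ j : ℕ)) y := by
      intro i hi
      unfold Zs at hi
      unfold SR
      rw [mem_filter] at hi ⊢
      exact ⟨hi.1, str_res _ rfl hi.2⟩
    have : ((Zs A q (ext0 fun j => (γ j : ℕ)) (fun _ : Fin r => 0) (fun _ => T) (u y) y).card : ℝ) ≤
        (SR A q (fun j => (γ j : ℕ)) y).card := by exact_mod_cast card_le_card hsub
    gcongr

/-- **The law of the residues and the gaps.** -/
theorem law_gap (D : Data A q Al U) (hu : Tendsto (fun y : ℕ => u y / U (y / q)) atTop (𝓝 (q / Al.card)))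
    (hT : Tendsto (fun y : ℕ => (ix A (y + 1) : ℝ) * u y / y) atTop (𝓝 1)) (β : Fin (r + 1) → ℕ) (hβ : ∀ j, β j ∈ Al)
    (t : Fin r → ℝ) (ht : ∀ j, 0 < t j) :
    Tendsto (fun y : ℕ => ((SG A q β t (u y) y).card : ℝ) / ix A (y + 1)) atTop
      (𝓝 ((1 / (Al.card : ℝ)) ^ (r + 1) * ∏ j, (1 - Real.exp (-t j)))) := by
  classical
  set c0 : ℝ := (1 / (Al.card : ℝ)) ^ (r + 1) with hc0
  set f : Fin r → Bool → ℝ := fun j b => if b = true then 1 - Real.exp (-t j) else Real.exp (-t j) with hf
  have hsum : ∑ k : (Fin (r + 1) → Al) × (Fin r → Bool), c0 * ∏ j, f j (k.2 j) = 1 := by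
    rw [Fintype.sum_prod_type]
    have h1 : ∑ σ : Fin r → Bool, ∏ j, f j (σ j) = 1 := by
      have h2 := prod_univ_sum (fun _ : Fin r => (univ : Finset Bool)) (fun j b => f j b)
      rw [Fintype.piFinset_univ] at h2
      rw [← h2]
      refine prod_eq_one fun j _ => ?_
      rw [Fintype.sum_bool]
      simp [hf]
    have h3 : ∀ γ : Fin (r + 1) → Al, ∑ σ : Fin r → Bool, c0 * ∏ j, f j (σ j) = c0 := by
      intro γ
      rw [← mul_sum, h1, mul_one]
    rw [sum_congr rfl fun γ _ => h3 γ]
    exact sum_str Al D.hne r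
  have key := part (κ := (Fin (r + 1) → Al) × (Fin r → Bool)) (fun k y => SB A q (fun j => (k.1 j : ℕ)) t k.2 (u y) y)
    (fun y => ix A (y + 1)) (fun k => c0 * ∏ j, f j (k.2 j)) (fun k y => filter_subset _ _)
    (fun k k' hne y => ?_) (N_pos hT) (fun k => ?_) hsum (fun j => ⟨β j, hβ j⟩, fun _ => true)
  · have e1 : ∀ y, SB A q β t (fun _ => true) (u y) y = SG A q β t (u y) y := by
      intro y
      unfold SB SG
      refine filter_congr fun i _ => and_congr_right fun _ => forall_congr' fun j => ?_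
      simp
    have e2 : c0 * ∏ j, f j true = c0 * ∏ j, (1 - Real.exp (-t j)) := by
      simp [hf]
    have key' : Tendsto (fun y : ℕ => ((SB A q β t (fun _ => true) (u y) y).card : ℝ) / ix A (y + 1)) atTop
        (𝓝 (c0 * ∏ j, f j true)) := key
    rw [e2] at key'
    refine key'.congr fun y => ?_
    rw [e1 y]
  · rw [disjoint_left]
    intro i hi hi'
    unfold SB at hi hi'
    rw [mem_filter] at hi hi'
    apply hne
    refine Prod.ext ?_ ?_
    · funext j
      exact Subtype.ext ((hi.2.1 j).symm.trans (hi'.2.1 j))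
    · funext j
      have h1 := (hi.2.2 j).trans (hi'.2.2 j).symm
      exact Bool.eq_iff_iff.2 h1
  · obtain ⟨γ, σ⟩ := k
    refine LB.sup fun ε hε => ?_
    set s : Fin r → ℝ := fun j => if σ j = true then 0 else t j with hs
    have hc : Tendsto (fun T : ℝ => c0 * ∏ j, (Real.exp (-s j) - (if σ j = true then Real.exp (-t j) else
        Real.exp (-(t j + T))))) atTop
        (𝓝 (c0 * ∏ j, (Real.exp (-s j) - (if σ j = true then Real.exp (-t j) else 0)))) := by
      refine Tendsto.const_mul _ (tendsto_finsetProd _ fun j _ => tendsto_const_nhds.sub ?_)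
      by_cases h1 : σ j = true
      · simp only [h1, if_true]
        exact tendsto_const_nhds
      · simp only [h1]
        exact Real.tendsto_exp_atBot.comp (tendsto_neg_atTop_atBot.comp (tendsto_atTop_add_const_left _ _ tendsto_id))
    have e : c0 * ∏ j, (Real.exp (-s j) - (if σ j = true then Real.exp (-t j) else 0)) = c0 * ∏ j, f j (σ j) := by
      congr 1
      refine prod_congr rfl fun j _ => ?_
      simp only [hs, hf]
      by_cases h1 : σ j = true
      · simp [h1]
      · simp [h1]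
    rw [e] at hc
    obtain ⟨T, h1, h2⟩ := ((hc.eventually_const_lt (show c0 * ∏ j, f j (σ j) - ε < c0 * ∏ j, f j (σ j) by linarith)).and
      (eventually_gt_atTop 0)).exists
    refine ⟨_, h1.le, ?_⟩
    set t' : Fin r → ℝ := fun j => if σ j = true then t j else t j + T with ht'
    have hlow := low_y (r := r) D hu hT (ext0 fun j => (γ j : ℕ)) (ext0_mem _ fun j => (γ j).2) s t'
      (fun j => by
        simp only [hs]
        split_ifs
        · exact le_rfl
        · exact (ht j).le) (fun j => by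
        simp only [hs, ht']
        split_ifs
        · exact ht j
        · linarith)
    have e2 : ∏ j, (Real.exp (-s j) - Real.exp (-t' j)) =
        ∏ j, (Real.exp (-s j) - (if σ j = true then Real.exp (-t j) else Real.exp (-(t j + T)))) := by
      refine prod_congr rfl fun j _ => ?_
      simp only [ht']
      split_ifs <;> rfl
    rw [e2] at hlow
    refine hlow.mono (Eventually.of_forall fun y => ?_)
    have hsub : Zs A q (ext0 fun j => (γ j : ℕ)) s t' (u y) y ⊆ SB A q (fun j => (γ j : ℕ)) t σ (u y) y := by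
      intro i hi
      unfold Zs at hi
      unfold SB
      rw [mem_filter] at hi ⊢
      refine ⟨hi.1, str_res _ rfl hi.2, fun j => ?_⟩
      have h3 := hi.2.2 j
      by_cases h4 : σ j = true
      · have e3 : t' j = t j := by simp only [ht']; rw [if_pos h4]
        rw [e3] at h3
        exact ⟨fun _ => h3.2, fun _ => h4⟩
      · have e3 : s j = t j := by simp only [hs]; rw [if_neg h4]
        rw [e3] at h3
        exact ⟨fun h => absurd h h4, fun h => absurd h (not_le.2 h3.1)⟩
    have : ((Zs A q (ext0 fun j => (γ j : ℕ)) s t' (u y) y).card : ℝ) ≤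
        (SB A q (fun j => (γ j : ℕ)) t σ (u y) y).card := by exact_mod_cast card_le_card hsub
    gcongr

end Pool.Agent.H531.LO
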