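import Pool.Agent.H531.LO.Cnt

set_option autoImplicit false

/-!
# The lower bound for strings, from the joint law of the windows
-/

open Finset Filter Topology

namespace Pool.Agent.H531.LO

/-- the law of the windows, and what else is needed -/
structure Data (A : Set ℕ) (q : ℕ) (Al : Finset ℕ) (U : ℕ → ℝ) : Prop where
  hA : A.Infinite
  hq : 0 < q
  hAl : ∀ a ∈ Al, a < q
  hne : Al.Nonempty
  hM : ∃ M0, ∀ m ∈ A, M0 ≤ m → m % q ∈ Al
  hU : Tendsto U atTop atTop
  hUx : Tendsto (fun x : ℕ => U x / x) atTop (𝓝 0)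
  hW : ∀ η : ℝ, 0 < η → ∀ L : ℕ, ∀ ρ : ℕ → ℕ → ℕ,
    Tendsto (fun x : ℕ => ({n : ℕ | 1 ≤ n ∧ n ≤ x ∧ ∀ a ∈ Al, ∀ l ≤ L,
      Nw A q a (l * (η * U x)) ((l + 1) * (η * U x)) n = ρ a l}.ncard : ℝ) / x) atTop
      (𝓝 (∏ a ∈ Al, ∏ l ∈ range (L + 1), (Real.exp (-η) * η ^ ρ a l / (ρ a l).factorial)))

variable {A : Set ℕ} {q : ℕ} {Al : Finset ℕ} {U : ℕ → ℝ} {r : ℕ}

theorem rho_sum (b : ℕ → ℕ) (hb : ∀ j ≤ r, b j ∈ Al) (g : Fin r → ℕ) (hg : ∀ i, 1 ≤ g i) :
    ∑ a ∈ Al, ∑ l ∈ range (ls g r + 1), rho b g a l = r + 1 := by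
  classical
  rw [← sum_product']
  have h1 : ∀ z ∈ Al ×ˢ range (ls g r + 1), rho b g z.1 z.2 =
      if z ∈ (range (r + 1)).image (fun j => (b j, ls g j)) then 1 else 0 := by
    rintro ⟨a, l⟩ _
    unfold rho
    refine if_congr ?_ rfl rfl
    rw [mem_image]
    constructor
    · rintro ⟨j, hj, rfl, rfl⟩
      exact ⟨j, mem_range.2 (by omega), rfl⟩
    · rintro ⟨j, hj, he⟩
      have := mem_range.1 hj
      exact ⟨j, by omega, (Prod.mk.inj he).1, (Prod.mk.inj he).2⟩
  rw [sum_congr rfl h1, sum_boole]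
  have h2 : (Al ×ˢ range (ls g r + 1)).filter (fun z => z ∈ (range (r + 1)).image (fun j => (b j, ls g j))) =
      (range (r + 1)).image (fun j => (b j, ls g j)) := by
    ext z
    rw [mem_filter]
    refine ⟨fun h => h.2, fun h => ⟨?_, h⟩⟩
    rw [mem_image] at h
    obtain ⟨j, hj, rfl⟩ := h
    rw [mem_range] at hj
    rw [mem_product, mem_range]
    have h3 := ls_le g (show j ≤ r by omega)
    exact ⟨hb j (by omega), by simpa using (by omega : ls g j < ls g r + 1)⟩
  rw [h2, card_image_of_injOn, card_range]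
  · simp
  · intro i hi j hj he
    have hi' : i < r + 1 := by simpa using hi
    have hj' : j < r + 1 := by simpa using hj
    have h3 : ls g i = ls g j := (Prod.mk.inj he).2
    rcases lt_trichotomy i j with h4 | h4 | h4
    · have := ls_lt g hg h4 (by omega)
      omega
    · exact h4
    · have := ls_lt g hg h4 (by omega)
      omega

theorem rho_prod (b : ℕ → ℕ) (hb : ∀ j ≤ r, b j ∈ Al) (g : Fin r → ℕ) (hg : ∀ i, 1 ≤ g i) (η : ℝ) :
    ∏ a ∈ Al, ∏ l ∈ range (ls g r + 1), (Real.exp (-η) * η ^ rho b g a l / (rho b g a l).factorial) =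
      Real.exp (-(η * (Al.card * (ls g r + 1)))) * η ^ (r + 1) := by
  have h1 : ∀ a ∈ Al, ∏ l ∈ range (ls g r + 1), (Real.exp (-η) * η ^ rho b g a l / (rho b g a l).factorial) =
      Real.exp (-η) ^ (ls g r + 1) * η ^ (∑ l ∈ range (ls g r + 1), rho b g a l) := by
    intro a _
    have h2 : ∀ l ∈ range (ls g r + 1), Real.exp (-η) * η ^ rho b g a l / (rho b g a l).factorial =
        Real.exp (-η) * η ^ rho b g a l := by
      intro l _
      have : ((rho b g a l).factorial : ℝ) = 1 := by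
        unfold rho
        split_ifs <;> simp
      rw [this, div_one]
    rw [prod_congr rfl h2, prod_mul_distrib, prod_const, card_range, prod_pow_eq_pow_sum]
  rw [prod_congr rfl h1, prod_mul_distrib, prod_const, prod_pow_eq_pow_sum, rho_sum b hb g hg, ← pow_mul,
    ← Real.exp_nat_mul]
  congr 2
  push_cast
  ring

/-- a Riemann sum -/
theorem riem (d η : ℝ) (hd : 0 < d) (hη : 0 < η) (m n : ℕ) :
    (Real.exp (-(d * η * m)) - Real.exp (-(d * η * (n + 1)))) / d ≤
      ∑ g ∈ Icc m n, η * Real.exp (-(d * η * g)) := by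
  have hterm : ∀ g : ℕ, (Real.exp (-(d * η * g)) - Real.exp (-(d * η * (g + 1)))) / d ≤ η * Real.exp (-(d * η * g)) := by
    intro g
    rw [div_le_iff₀ hd]
    have e : Real.exp (-(d * η * ((g : ℝ) + 1))) = Real.exp (-(d * η * g)) * Real.exp (-(d * η)) := by
      rw [← Real.exp_add]
      ring_nf
    rw [e]
    have h1 := Real.add_one_le_exp (-(d * η))
    have h2 := Real.exp_pos (-(d * η * g))
    nlinarith
  rcases Nat.lt_or_ge n m with h | h
  · have h1 : Icc m n = ∅ := Icc_eq_empty (by omega)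
    rw [h1, sum_empty]
    apply div_nonpos_of_nonpos_of_nonneg _ hd.le
    have h2 : Real.exp (-(d * η * m)) ≤ Real.exp (-(d * η * (n + 1))) := by
      apply Real.exp_le_exp.2
      have h3 : ((n : ℝ) + 1) ≤ m := by exact_mod_cast h
      have : d * η * (n + 1) ≤ d * η * m := by gcongr
      linarith
    linarith
  · induction n, h using Nat.le_induction with
    | base =>
      rw [Icc_self, sum_singleton]
      exact hterm m
    | succ n hn ih =>
      rw [sum_Icc_succ_top (by omega)]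
      have h1 := hterm (n + 1)
      push_cast at h1 ⊢
      have e : (Real.exp (-(d * η * m)) - Real.exp (-(d * η * ((n : ℝ) + 1 + 1)))) / d =
          (Real.exp (-(d * η * ((n : ℝ) + 1))) - Real.exp (-(d * η * ((n : ℝ) + 1 + 1)))) / d +
          (Real.exp (-(d * η * m)) - Real.exp (-(d * η * (n + 1)))) / d := by ring
      rw [e]
      linarith

/-- **The lower bound for strings.** -/
theorem low_lim (D : Data A q Al U) (b : ℕ → ℕ) (hb : ∀ j ≤ r, b j ∈ Al) (s t : Fin r → ℝ) (hs0 : ∀ i, 0 ≤ s i)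
    (hst : ∀ i, s i < t i) (ε : ℝ) (hε : 0 < ε) : ∀ᶠ x : ℕ in atTop,
      (∏ i, ((Real.exp (-(Al.card * s i)) - Real.exp (-(Al.card * t i))) / Al.card)) - ε ≤
        ((Zs A q b s t (q * U x) (q * x)).card : ℝ) * U x / x := by
  classical
  obtain ⟨hA, hq, hAl, hne, ⟨M0, hM⟩, hU, hUx, hW⟩ := D
  set d : ℝ := (Al.card : ℝ) with hd
  have hd0 : 0 < d := by
    rw [hd]
    exact_mod_cast hne.card_pos
  have hqR : (0 : ℝ) < q := by exact_mod_cast hq
  -- the parameter
  have hcont : Tendsto (fun η : ℝ => Real.exp (-(η * d)) *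
      ∏ i, ((Real.exp (-(d * (s i + 3 * η))) - Real.exp (-(d * (t i - 2 * η)))) / d)) (𝓝 0)
      (𝓝 (Real.exp (-(0 * d)) * ∏ i, ((Real.exp (-(d * (s i + 3 * 0))) - Real.exp (-(d * (t i - 2 * 0)))) / d))) := by
    refine Continuous.tendsto ?_ 0
    refine Continuous.mul (by fun_prop) ?_
    refine continuous_finsetProd _ fun i _ => ?_
    fun_prop
  have e0 : Real.exp (-(0 * d)) * ∏ i, ((Real.exp (-(d * (s i + 3 * 0))) - Real.exp (-(d * (t i - 2 * 0)))) / d) =
      ∏ i, ((Real.exp (-(d * s i)) - Real.exp (-(d * t i))) / d) := by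
    simp
  rw [e0] at hcont
  have hpos : ∀ᶠ η : ℝ in 𝓝 0, ∀ i, s i + 3 * η < t i - 2 * η := by
    rw [eventually_all]
    intro i
    have h1 : Tendsto (fun η : ℝ => (t i - 2 * η) - (s i + 3 * η)) (𝓝 0) (𝓝 ((t i - 2 * 0) - (s i + 3 * 0))) := by
      refine Continuous.tendsto ?_ 0
      fun_prop
    have h2 := hst i
    filter_upwards [h1.eventually_const_lt (show 0 < (t i - 2 * 0) - (s i + 3 * 0) by linarith)] with η h3
    linarith
  obtain ⟨η, ⟨hη1, hη2⟩, hη0⟩ := (((hcont.eventually_const_lt (show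
    (∏ i, ((Real.exp (-(d * s i)) - Real.exp (-(d * t i))) / d)) - ε / 2 <
      ∏ i, ((Real.exp (-(d * s i)) - Real.exp (-(d * t i))) / d) by linarith)).and hpos).filter_mono
        (nhdsWithin_le_nhds (s := Set.Ioi 0)) |>.and self_mem_nhdsWithin).exists
  have hη : 0 < η := hη0
  set lo : Fin r → ℕ := fun i => ⌈s i / η⌉₊ + 2 with hlo
  set hi : Fin r → ℕ := fun i => ⌊t i / η⌋₊ - 2 with hhi
  set Box : Finset (Fin r → ℕ) := Fintype.piFinset fun i => Icc (lo i) (hi i) with hBox
  have hg1 : ∀ g ∈ Box, ∀ i, 1 ≤ g i := by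
    intro g hg i
    have h1 := mem_Icc.1 (Fintype.mem_piFinset.1 hg i)
    simp only [hlo] at h1
    omega
  have hglo : ∀ g ∈ Box, ∀ i, s i + η ≤ ((g i : ℝ) - 1) * η := by
    intro g hg i
    have h1 := (mem_Icc.1 (Fintype.mem_piFinset.1 hg i)).1
    have h2 : ((lo i : ℕ) : ℝ) ≤ g i := by exact_mod_cast h1
    simp only [hlo] at h2
    push_cast at h2
    have h3 := Nat.le_ceil (s i / η)
    have h4 : s i / η + 1 ≤ (g i : ℝ) - 1 := by linarith
    have h5 : (s i / η + 1) * η ≤ ((g i : ℝ) - 1) * η := by gcongr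
    have h6 : (s i / η + 1) * η = s i + η := by field_simp
    linarith
  have hghi : ∀ g ∈ Box, ∀ i, ((g i : ℝ) + 1) * η ≤ t i - η := by
    intro g hg i
    have h1 := (mem_Icc.1 (Fintype.mem_piFinset.1 hg i))
    simp only [hlo, hhi] at h1
    have h2 : g i + 2 ≤ ⌊t i / η⌋₊ := by omega
    have h3 : ((g i : ℝ) + 2) ≤ (⌊t i / η⌋₊ : ℝ) := by exact_mod_cast h2
    have ht0 : 0 ≤ t i / η := div_nonneg (by linarith [hs0 i, hst i]) hη.le
    have h4 := Nat.floor_le ht0
    have h5 : ((g i : ℝ) + 2) * η ≤ t i / η * η := by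
      have : (g i : ℝ) + 2 ≤ t i / η := by linarith
      gcongr
    have h6 : t i / η * η = t i := by field_simp
    linarith
  -- the sum over the box
  set Pg : (Fin r → ℕ) → ℝ := fun g => Real.exp (-(η * (d * (ls g r + 1)))) * η ^ (r + 1) with hPg
  have hPsum : η * ((∏ i, ((Real.exp (-(d * s i)) - Real.exp (-(d * t i))) / d)) - ε / 2) ≤ ∑ g ∈ Box, Pg g := by
    have e1 : ∀ g ∈ Box, Pg g = η * (Real.exp (-(η * d)) * ∏ i, (η * Real.exp (-(d * η * g i)))) := by
      intro g _
      simp only [hPg]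
      rw [ls_last, prod_mul_distrib, prod_const, card_univ, Fintype.card_fin, ← Real.exp_sum]
      have e2 : Real.exp (-(η * (d * (((∑ i, g i : ℕ) : ℝ) + 1)))) =
          Real.exp (-(η * d)) * Real.exp (∑ i, -(d * η * (g i : ℝ))) := by
        rw [← Real.exp_add]
        congr 1
        push_cast
        rw [sum_neg_distrib, ← mul_sum]
        ring
      rw [e2, pow_succ]
      ring
    rw [sum_congr rfl e1, ← mul_sum, ← mul_sum]
    have e3 : ∑ g ∈ Box, ∏ i, (η * Real.exp (-(d * η * (g i : ℝ)))) =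
        ∏ i, ∑ m ∈ Icc (lo i) (hi i), (η * Real.exp (-(d * η * (m : ℝ)))) := by
      rw [prod_univ_sum]
    rw [e3]
    apply mul_le_mul_of_nonneg_left _ hη.le
    refine hη1.le.trans ?_
    apply mul_le_mul_of_nonneg_left _ (Real.exp_pos _).le
    refine prod_le_prod (fun i _ => ?_) fun i _ => ?_
    · apply div_nonneg _ hd0.le
      have h1 : Real.exp (-(d * (t i - 2 * η))) ≤ Real.exp (-(d * (s i + 3 * η))) := by
        apply Real.exp_le_exp.2
        have h2 := (hη2 i).le
        have : d * (s i + 3 * η) ≤ d * (t i - 2 * η) := by gcongr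
        linarith
      linarith
    · refine le_trans ?_ (riem d η hd0 hη (lo i) (hi i))
      apply div_le_div_of_nonneg_right _ hd0.le
      have h1 : Real.exp (-(d * (s i + 3 * η))) ≤ Real.exp (-(d * η * lo i)) := by
        apply Real.exp_le_exp.2
        have h2 : (lo i : ℝ) ≤ s i / η + 3 := by
          simp only [hlo]
          push_cast
          have := Nat.ceil_lt_add_one (div_nonneg (hs0 i) hη.le)
          linarith
        have h3 : η * (lo i : ℝ) ≤ s i + 3 * η := by
          have h4 : η * (lo i : ℝ) ≤ η * (s i / η + 3) := by gcongr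
          have h5 : η * (s i / η + 3) = s i + 3 * η := by field_simp
          linarith
        have h6 : d * (η * lo i) ≤ d * (s i + 3 * η) := by gcongr
        linarith
      have h2 : Real.exp (-(d * η * (hi i + 1))) ≤ Real.exp (-(d * (t i - 2 * η))) := by
        apply Real.exp_le_exp.2
        have h3 : t i / η - 2 ≤ (hi i : ℝ) + 1 := by
          have h4 := Nat.lt_floor_add_one (t i / η)
          have h5 : ⌊t i / η⌋₊ ≤ hi i + 2 := by
            simp only [hhi]
            omega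
          have h6 : (⌊t i / η⌋₊ : ℝ) ≤ hi i + 2 := by exact_mod_cast h5
          linarith
        have h4 : η * (t i / η - 2) ≤ η * ((hi i : ℝ) + 1) := by gcongr
        have h5 : η * (t i / η - 2) = t i - 2 * η := by field_simp
        have h6 : d * (t i - 2 * η) ≤ d * (η * ((hi i : ℝ) + 1)) := by
          apply mul_le_mul_of_nonneg_left _ hd0.le
          linarith
        linarith
      linarith
  -- the limits
  have hEs : ∀ g ∈ Box, Tendsto (fun x : ℕ => ((Es A q Al b g (η * U x) x).card : ℝ) / x) atTop (𝓝 (Pg g)) := by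
    intro g hg
    have h1 := hW η hη (ls g r) (rho b g)
    rw [rho_prod b hb g (hg1 g hg) η] at h1
    refine h1.congr fun x => ?_
    congr 2
    rw [← Set.ncard_coe_finset]
    congr 1
    ext n
    unfold Es Ev
    simp only [Set.mem_ofPred_eq, coe_filter, mem_Icc, and_assoc]
  have hsum : Tendsto (fun x : ℕ => ∑ g ∈ Box, ((Es A q Al b g (η * U x) x).card : ℝ) / x) atTop (𝓝 (∑ g ∈ Box, Pg g)) :=
    tendsto_finsetSum _ hEs
  have hrest : Tendsto (fun x : ℕ => (Box.card * M0 + 2) / (x : ℝ) + η * (U x / x)) atTop (𝓝 (0 + η * 0)) := by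
    refine Tendsto.add ?_ (hUx.const_mul η)
    exact tendsto_const_nhds.div_atTop tendsto_natCast_atTop_atTop
  have hall := hsum.sub hrest
  have hlt : η * ((∏ i, ((Real.exp (-(d * s i)) - Real.exp (-(d * t i))) / d)) - ε) <
      (∑ g ∈ Box, Pg g) - (0 + η * 0) := by
    rw [mul_zero, add_zero, sub_zero]
    refine lt_of_lt_of_le ?_ hPsum
    apply mul_lt_mul_of_pos_left _ hη
    linarith
  filter_upwards [hall.eventually_const_lt hlt, hU.eventually_ge_atTop (1 / η), eventually_ge_atTop 1] with x hx hUx1 hx1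
  have hx0 : (0 : ℝ) < x := by exact_mod_cast hx1
  have hUη : 1 ≤ η * U x := by
    rw [div_le_iff₀ hη] at hUx1
    linarith
  have hU0 : 0 < U x := by
    have : 0 < 1 / η := by positivity
    linarith
  have key := count_strings (A := A) (Al := Al) hA hq hAl M0 hM b hb Box hg1 (η * U x) (by positivity) s t (q * U x)
    (fun g hg i => by
      have h1 := hglo g hg i
      have h2 : (s i + η) * U x ≤ ((g i : ℝ) - 1) * η * U x := by gcongr
      have h3 : s i * U x + 1 ≤ ((g i : ℝ) - 1) * η * U x := by linarith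
      have h4 : (q : ℝ) * (s i * U x + 1) ≤ q * (((g i : ℝ) - 1) * η * U x) := by gcongr
      linarith)
    (fun g hg i => by
      have h1 := hghi g hg i
      have h2 : ((g i : ℝ) + 1) * η * U x ≤ (t i - η) * U x := by gcongr
      have h3 : ((g i : ℝ) + 1) * η * U x + 1 ≤ t i * U x := by linarith
      have h4 : (q : ℝ) * (((g i : ℝ) + 1) * η * U x + 1) ≤ q * (t i * U x) := by gcongr
      linarith) x
  rw [← sum_div] at hx
  have h2 : η * ((∏ i, ((Real.exp (-(d * s i)) - Real.exp (-(d * t i))) / d)) - ε) * x ≤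
      η * U x * ((Zs A q b s t (q * U x) (q * x)).card : ℝ) := by
    have h3 : (∑ g ∈ Box, ((Es A q Al b g (η * U x) x).card : ℝ)) / x - ((Box.card * M0 + 2) / (x : ℝ) + η * (U x / x)) =
        ((∑ g ∈ Box, ((Es A q Al b g (η * U x) x).card : ℝ)) - (Box.card * M0 + 2 + η * U x)) / x := by
      field_simp
    rw [h3, lt_div_iff₀ hx0] at hx
    linarith
  rw [le_div_iff₀ hx0]
  have h4 : η * (((∏ i, ((Real.exp (-(d * s i)) - Real.exp (-(d * t i))) / d)) - ε) * x) ≤
      η * (((Zs A q b s t (q * U x) (q * x)).card : ℝ) * U x) := by linarith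
  exact le_of_mul_le_mul_left h4 hη

end Pool.Agent.H531.LO
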