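import Pool.Agent.H531.LO.Lim

set_option autoImplicit false

/-!
# From lower bounds to the law of the strings
-/

open Finset Filter Topology

namespace Pool.Agent.H531.LO

/-- `L` is at most the lower limit -/
def LB (f : ℕ → ℝ) (L : ℝ) : Prop := ∀ ε : ℝ, 0 < ε → ∀ᶠ x : ℕ in atTop, L - ε ≤ f x

theorem LB.mul {f g : ℕ → ℝ} {L c : ℝ} (hf : LB f L) (hf0 : ∀ᶠ x in atTop, 0 ≤ f x) (hL : 0 ≤ L) (hc : 0 < c)
    (hg : Tendsto g atTop (𝓝 c)) : LB (fun x => f x * g x) (L * c) := by
  intro ε hε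
  set δ : ℝ := min (ε / (2 * c)) 1 with hδ
  have hδ0 : 0 < δ := lt_min (by positivity) one_pos
  set κ : ℝ := min (ε / (2 * (L + 1))) (c / 2) with hκ
  have hκ0 : 0 < κ := lt_min (by positivity) (by positivity)
  filter_upwards [hf δ hδ0, hf0, hg.eventually_const_lt (show c - κ < c by linarith)] with x h1 h2 h3
  have h4 : δ * c ≤ ε / 2 := by
    have : δ ≤ ε / (2 * c) := min_le_left _ _
    calc δ * c ≤ ε / (2 * c) * c := by gcongr
      _ = ε / 2 := by field_simp
  have h5 : κ * L ≤ ε / 2 := by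
    have h6 : κ ≤ ε / (2 * (L + 1)) := min_le_left _ _
    calc κ * L ≤ ε / (2 * (L + 1)) * (L + 1) := by
          apply mul_le_mul h6 (by linarith) hL (by positivity)
      _ = ε / 2 := by field_simp
  have h7 : κ ≤ c / 2 := min_le_right _ _
  have h8 : f x * (c - κ) ≤ f x * g x := mul_le_mul_of_nonneg_left h3.le h2
  have h9 : (L - δ) * (c - κ) ≤ f x * (c - κ) := mul_le_mul_of_nonneg_right h1 (by linarith)
  have h10 : (L - δ) * (c - κ) = L * c - κ * L - δ * c + δ * κ := by ring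
  have h11 : 0 < δ * κ := by positivity
  linarith

theorem LB.mono {f g : ℕ → ℝ} {L : ℝ} (hf : LB f L) (h : ∀ᶠ x in atTop, f x ≤ g x) : LB g L := by
  intro ε hε
  filter_upwards [hf ε hε, h] with x h1 h2
  exact h1.trans h2

theorem LB.sup {f : ℕ → ℝ} {L : ℝ} (h : ∀ ε : ℝ, 0 < ε → ∃ L', L - ε ≤ L' ∧ LB f L') : LB f L := by
  intro ε hε
  obtain ⟨L', h1, h2⟩ := h (ε / 2) (by positivity)
  filter_upwards [h2 (ε / 2) (by positivity)] with x h3
  linarith

/-- **A partition whose parts have lower bounds of sum one.** -/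
theorem part {κ : Type*} [Fintype κ] (Z : κ → ℕ → Finset ℕ) (N : ℕ → ℕ) (p : κ → ℝ)
    (hsub : ∀ k, ∀ y, Z k y ⊆ range (N y)) (hdisj : ∀ k k', k ≠ k' → ∀ y, Disjoint (Z k y) (Z k' y))
    (hN : ∀ᶠ y in atTop, 0 < N y) (hp : ∀ k, LB (fun y => ((Z k y).card : ℝ) / N y) (p k)) (hsum : ∑ k, p k = 1)
    (k : κ) : Tendsto (fun y => ((Z k y).card : ℝ) / N y) atTop (𝓝 (p k)) := by
  classical
  rw [Metric.tendsto_nhds]
  intro ε hε
  set c : ℝ := ((Fintype.card κ : ℕ) : ℝ) with hc
  have hc0 : 0 < c := by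
    rw [hc]
    exact_mod_cast Fintype.card_pos_iff.2 ⟨k⟩
  have hall : ∀ᶠ y in atTop, ∀ k', p k' - ε / (2 * c) ≤ ((Z k' y).card : ℝ) / N y := by
    rw [eventually_all]
    intro k'
    exact hp k' (ε / (2 * c)) (by positivity)
  filter_upwards [hall, hN] with y hy hNy
  have hN0 : (0 : ℝ) < N y := by exact_mod_cast hNy
  have h1 : ∑ k', ((Z k' y).card : ℝ) / N y ≤ 1 := by
    rw [← sum_div, div_le_one hN0]
    have h2 : (univ.biUnion fun k' => Z k' y).card = ∑ k', (Z k' y).card :=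
      card_biUnion fun k1 _ k2 _ h12 => hdisj k1 k2 h12 y
    have h3 : (univ.biUnion fun k' => Z k' y).card ≤ N y := by
      calc _ ≤ (range (N y)).card := card_le_card (biUnion_subset.2 fun k' _ => hsub k' y)
        _ = N y := card_range _
    rw [h2] at h3
    exact_mod_cast h3
  have h2 : ∑ k' ∈ univ.erase k, (p k' - ε / (2 * c)) ≤ ∑ k' ∈ univ.erase k, ((Z k' y).card : ℝ) / N y :=
    sum_le_sum fun k' _ => hy k'
  have h3 : ((Z k y).card : ℝ) / N y + ∑ k' ∈ univ.erase k, ((Z k' y).card : ℝ) / N y =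
      ∑ k', ((Z k' y).card : ℝ) / N y := add_sum_erase univ (fun k' => ((Z k' y).card : ℝ) / N y) (mem_univ k)
  have h4 : p k + ∑ k' ∈ univ.erase k, p k' = ∑ k', p k' := add_sum_erase univ p (mem_univ k)
  rw [sum_sub_distrib, sum_const, nsmul_eq_mul] at h2
  have h5 : ((univ.erase k).card : ℝ) * (ε / (2 * c)) ≤ ε / 2 := by
    have h6 : ((univ.erase k).card : ℝ) ≤ c := by
      rw [hc, ← card_univ]
      exact_mod_cast card_le_card (erase_subset k univ)
    calc ((univ.erase k).card : ℝ) * (ε / (2 * c)) ≤ c * (ε / (2 * c)) := by gcongr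
      _ = ε / 2 := by field_simp
  have h7 := hy k
  have h8 : ε / (2 * c) ≤ ε / 2 := by
    apply div_le_div_of_nonneg_left hε.le (by norm_num)
    have : (1 : ℝ) ≤ c := by
      rw [hc]
      exact_mod_cast Fintype.card_pos_iff.2 ⟨k⟩
    linarith
  rw [Real.dist_eq, abs_lt]
  constructor
  · linarith
  · linarith

variable {A : Set ℕ} {q : ℕ} {Al : Finset ℕ} {U u : ℕ → ℝ} {r : ℕ}

/-- **The lower bound, in terms of the number of the elements.** -/
theorem low_y (D : Data A q Al U) (hu : Tendsto (fun y : ℕ => u y / U (y / q)) atTop (𝓝 (q / Al.card)))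
    (hT : Tendsto (fun y : ℕ => (ix A (y + 1) : ℝ) * u y / y) atTop (𝓝 1)) (b : ℕ → ℕ) (hb : ∀ j ≤ r, b j ∈ Al)
    (s t : Fin r → ℝ) (hs0 : ∀ i, 0 ≤ s i) (hst : ∀ i, s i < t i) :
    LB (fun y : ℕ => ((Zs A q b s t (u y) y).card : ℝ) / ix A (y + 1))
      ((1 / (Al.card : ℝ)) ^ (r + 1) * ∏ i, (Real.exp (-s i) - Real.exp (-t i))) := by
  classical
  have hq : 0 < q := D.hq
  have hqR : (0 : ℝ) < q := by exact_mod_cast hq
  set d : ℝ := (Al.card : ℝ) with hd
  have hd0 : 0 < d := by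
    rw [hd]
    exact_mod_cast D.hne.card_pos
  refine LB.sup fun ε hε => ?_
  -- smaller thresholds
  have hcont : Tendsto (fun κ : ℝ => (∏ i, ((Real.exp (-(d * (s i / d + κ))) - Real.exp (-(d * (t i / d - κ)))) / d)) * (1 / d))
      (𝓝 0) (𝓝 ((∏ i, ((Real.exp (-(d * (s i / d + 0))) - Real.exp (-(d * (t i / d - 0)))) / d)) * (1 / d))) := by
    refine Continuous.tendsto ?_ 0
    refine Continuous.mul ?_ continuous_const
    refine continuous_finsetProd _ fun i _ => ?_
    fun_prop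
  have e0 : (∏ i, ((Real.exp (-(d * (s i / d + 0))) - Real.exp (-(d * (t i / d - 0)))) / d)) * (1 / d) =
      (1 / d) ^ (r + 1) * ∏ i, (Real.exp (-s i) - Real.exp (-t i)) := by
    have h1 : ∀ i, ((Real.exp (-(d * (s i / d + 0))) - Real.exp (-(d * (t i / d - 0)))) / d) =
        (1 / d) * (Real.exp (-s i) - Real.exp (-t i)) := by
      intro i
      rw [add_zero, sub_zero, mul_div_cancel₀ _ hd0.ne', mul_div_cancel₀ _ hd0.ne']
      ring
    rw [prod_congr rfl fun i _ => h1 i, prod_mul_distrib, prod_const, card_univ, Fintype.card_fin, pow_succ]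
    ring
  rw [e0] at hcont
  have hpos : ∀ᶠ κ : ℝ in 𝓝 0, ∀ i, s i / d + κ < t i / d - κ := by
    rw [eventually_all]
    intro i
    have h1 : Tendsto (fun κ : ℝ => (t i / d - κ) - (s i / d + κ)) (𝓝 0) (𝓝 ((t i / d - 0) - (s i / d + 0))) := by
      refine Continuous.tendsto ?_ 0
      fun_prop
    have h2 : s i / d < t i / d := div_lt_div_of_pos_right (hst i) hd0
    filter_upwards [h1.eventually_const_lt (show 0 < (t i / d - 0) - (s i / d + 0) by linarith)] with κ h3
    linarith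
  obtain ⟨κ, ⟨hκ1, hκ2⟩, hκ0⟩ := (((hcont.eventually_const_lt (show
    (1 / d) ^ (r + 1) * ∏ i, (Real.exp (-s i) - Real.exp (-t i)) - ε <
      (1 / d) ^ (r + 1) * ∏ i, (Real.exp (-s i) - Real.exp (-t i)) by linarith)).and hpos).filter_mono
        (nhdsWithin_le_nhds (s := Set.Ioi 0)) |>.and self_mem_nhdsWithin).exists
  have hκ : 0 < κ := hκ0
  set s' : Fin r → ℝ := fun i => s i / d + κ with hs'
  set t' : Fin r → ℝ := fun i => t i / d - κ with ht'
  refine ⟨_, hκ1.le, ?_⟩
  have hlow : LB (fun x : ℕ => ((Zs A q b s' t' (q * U x) (q * x)).card : ℝ) * U x / x)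
      (∏ i, ((Real.exp (-(d * s' i)) - Real.exp (-(d * t' i))) / d)) :=
    fun δ hδ => low_lim D b hb s' t' (fun i => by
      have := hs0 i
      simp only [hs']
      positivity) hκ2 δ hδ
  -- the change of scale
  have hdiv : Tendsto (fun y : ℕ => y / q) atTop atTop := Nat.tendsto_div_const_atTop hq.ne'
  have hlow' : LB (fun y : ℕ => ((Zs A q b s' t' (q * U (y / q)) (q * (y / q))).card : ℝ) * U (y / q) / ((y / q : ℕ) : ℝ))
      (∏ i, ((Real.exp (-(d * s' i)) - Real.exp (-(d * t' i))) / d)) := fun δ hδ => hdiv.eventually (hlow δ hδ)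
  have hU' : ∀ᶠ y : ℕ in atTop, 1 ≤ U (y / q) := hdiv.eventually (D.hU.eventually_ge_atTop 1)
  have hyq : Tendsto (fun y : ℕ => ((y / q : ℕ) : ℝ) / y) atTop (𝓝 (1 / q)) := by
    have h1 : Tendsto (fun y : ℕ => 1 / (q : ℝ) - 1 / (y : ℝ)) atTop (𝓝 (1 / q - 0)) :=
      tendsto_const_nhds.sub (tendsto_const_nhds.div_atTop tendsto_natCast_atTop_atTop)
    rw [sub_zero] at h1
    refine tendsto_of_tendsto_of_tendsto_of_le_of_le' h1 tendsto_const_nhds ?_ ?_
    · filter_upwards [eventually_ge_atTop 1] with y hy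
      have hy0 : (0 : ℝ) < y := by exact_mod_cast hy
      rw [le_div_iff₀ hy0, sub_mul, one_div_mul_cancel hy0.ne']
      have h2 : y < q * (y / q) + q := by
        have := Nat.lt_mul_div_succ y hq
        rwa [mul_add, mul_one] at this
      have h3 : (y : ℝ) ≤ q * ((y / q : ℕ) : ℝ) + q := by exact_mod_cast h2.le
      have h4 : 1 / (q : ℝ) * y ≤ 1 / (q : ℝ) * (q * ((y / q : ℕ) : ℝ) + q) := by gcongr
      have h5 : 1 / (q : ℝ) * (q * ((y / q : ℕ) : ℝ) + q) = ((y / q : ℕ) : ℝ) + 1 := by field_simp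
      linarith
    · filter_upwards [eventually_ge_atTop 1] with y hy
      have hy0 : (0 : ℝ) < y := by exact_mod_cast hy
      rw [div_le_iff₀ hy0]
      have h2 : ((y / q : ℕ) : ℝ) ≤ (y : ℝ) / q := Nat.cast_div_le
      have h3 : (y : ℝ) / q = 1 / q * y := by ring
      linarith
  have hg : Tendsto (fun y : ℕ => (u y / U (y / q)) * (((y / q : ℕ) : ℝ) / y) / ((ix A (y + 1) : ℝ) * u y / y)) atTop
      (𝓝 (q / d * (1 / q) / 1)) := (hu.mul hyq).div hT one_ne_zero
  have e1 : (q : ℝ) / d * (1 / q) / 1 = 1 / d := by field_simp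
  rw [e1] at hg
  have hprod := hlow'.mul (by
    filter_upwards [hU'] with y hy
    positivity) (by
    refine prod_nonneg fun i _ => ?_
    apply div_nonneg _ hd0.le
    have h1 : Real.exp (-(d * t' i)) ≤ Real.exp (-(d * s' i)) := by
      apply Real.exp_le_exp.2
      have h2 := (hκ2 i).le
      have : d * s' i ≤ d * t' i := mul_le_mul_of_nonneg_left h2 hd0.le
      linarith
    linarith) (by positivity) hg
  refine hprod.mono ?_
  have hTpos : ∀ᶠ y : ℕ in atTop, 0 < (ix A (y + 1) : ℝ) * u y / y := hT.eventually_const_lt one_pos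
  have hupos : ∀ᶠ y : ℕ in atTop, 0 < u y / U (y / q) := hu.eventually_const_lt (by positivity)
  have hthr : ∀ᶠ y : ℕ in atTop, ∀ i, s i * u y ≤ s' i * (q * U (y / q)) ∧ t' i * (q * U (y / q)) ≤ t i * u y := by
    rw [eventually_all]
    intro i
    have ht0 : 0 < t i := lt_of_le_of_lt (hs0 i) (hst i)
    have h1 : Tendsto (fun y : ℕ => s i * (u y / U (y / q))) atTop (𝓝 (s i * (q / d))) := hu.const_mul _
    have h2 : Tendsto (fun y : ℕ => t i * (u y / U (y / q))) atTop (𝓝 (t i * (q / d))) := hu.const_mul _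
    have h3 : s i * (q / d) < s' i * q := by
      have e : s i * (q / d) = s i / d * q := by ring
      rw [e]
      apply mul_lt_mul_of_pos_right _ hqR
      simp only [hs']
      linarith
    have h4 : t' i * q < t i * (q / d) := by
      have e : t i * (q / d) = t i / d * q := by ring
      rw [e]
      apply mul_lt_mul_of_pos_right _ hqR
      simp only [ht']
      linarith
    filter_upwards [h1.eventually_lt_const h3, h2.eventually_const_lt h4, hU'] with y h5 h6 h7
    have h8 : 0 < U (y / q) := by linarith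
    constructor
    · have h9 := mul_le_mul_of_nonneg_right h5.le h8.le
      have e : s i * (u y / U (y / q)) * U (y / q) = s i * u y := by field_simp
      rw [e] at h9
      linarith
    · have h9 := mul_le_mul_of_nonneg_right h6.le h8.le
      have e : t i * (u y / U (y / q)) * U (y / q) = t i * u y := by field_simp
      rw [e] at h9
      linarith
  filter_upwards [hthr, hU', hTpos, hupos, eventually_ge_atTop q] with y h1 h2 h3 h4 h5
  have hU0 : 0 < U (y / q) := by linarith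
  have hy0 : (0 : ℝ) < y := by
    have : 0 < y := by omega
    exact_mod_cast this
  have hu0 : 0 < u y := by
    have := mul_pos h4 hU0
    rwa [div_mul_cancel₀ _ hU0.ne'] at this
  have hyq0 : (0 : ℝ) < ((y / q : ℕ) : ℝ) := by
    have : 0 < y / q := Nat.div_pos h5 hq
    exact_mod_cast this
  have hix0 : (0 : ℝ) < ix A (y + 1) := by
    by_contra hcon
    have : (ix A (y + 1) : ℝ) = 0 := le_antisymm (not_lt.1 hcon) (Nat.cast_nonneg _)
    rw [this] at h3
    simp at h3
  have hsub : Zs A q b s' t' (q * U (y / q)) (q * (y / q)) ⊆ Zs A q b s t (u y) y := by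
    intro i hi
    unfold Zs at hi ⊢
    rw [mem_filter, mem_range] at hi ⊢
    refine ⟨?_, hi.2.1, fun j => ?_⟩
    · rw [← el_le_iff D.hA] at hi ⊢
      exact hi.1.trans (Nat.mul_div_le _ _)
    · have h6 := hi.2.2 j
      have h7 := h1 j
      exact ⟨lt_of_le_of_lt h7.1 h6.1, h6.2.trans h7.2⟩
  have hcard : ((Zs A q b s' t' (q * U (y / q)) (q * (y / q))).card : ℝ) ≤ (Zs A q b s t (u y) y).card := by
    exact_mod_cast card_le_card hsub
  have e2 : ((Zs A q b s' t' (q * U (y / q)) (q * (y / q))).card : ℝ) * U (y / q) / ((y / q : ℕ) : ℝ) *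
      ((u y / U (y / q)) * (((y / q : ℕ) : ℝ) / y) / ((ix A (y + 1) : ℝ) * u y / y)) =
      ((Zs A q b s' t' (q * U (y / q)) (q * (y / q))).card : ℝ) / ix A (y + 1) := by
    field_simp
  rw [e2]
  gcongr

end Pool.Agent.H531.LO
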