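import Pool.Agent.H531.LO.Law
import Pool.Agent.H559.PV.Fin

set_option autoImplicit false

/-!
# The systems of the residue classes
-/

open Finset Filter Topology Polynomial

namespace Pool.Agent.H531.LO

open Pool.Agent.H559.PV (GP not_shift)
open Pool.Agent.H559.HY (omF CF)

/-- `q X + a` -/
noncomputable def lin (q a : ℕ) : ℤ[X] := C (q : ℤ) * X + C (a : ℤ)

theorem lin_deg {q : ℕ} (hq : 0 < q) (a : ℕ) : (lin q a).natDegree = 1 := by
  unfold lin
  exact natDegree_linear (by exact_mod_cast hq.ne')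

theorem lin_lc {q : ℕ} (hq : 0 < q) (a : ℕ) : (lin q a).leadingCoeff = q := by
  unfold lin
  exact leadingCoeff_linear (by exact_mod_cast hq.ne')

theorem lin_eval (q a : ℕ) (f : ℤ[X]) (n : ℤ) : (f.comp (lin q a)).eval n = f.eval (q * n + a) := by
  rw [eval_comp]
  simp [lin]

theorem lin_inj {q : ℕ} (hq : 0 < q) (a : ℕ) {f g : ℤ[X]} (h : f.comp (lin q a) = g.comp (lin q a)) : f = g := by
  have h1 : (f - g).comp (lin q a) = 0 := by rw [sub_comp, h, sub_self]
  rcases comp_eq_zero_iff.1 h1 with h2 | ⟨-, h2⟩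
  · exact sub_eq_zero.1 h2
  · have h3 := lin_deg hq a
    rw [h2, natDegree_C] at h3
    omega

/-- the class `a` modulo `q` is allowed -/
def Alw (F : Finset ℤ[X]) (q a : ℕ) : Prop := Int.gcd (∏ f ∈ F, f.eval (a : ℤ)) q = 1

theorem alw_iff (F : Finset ℤ[X]) (q a : ℕ) :
    Alw F q a ↔ ∀ p, p.Prime → p ∣ q → ∀ f ∈ F, ¬ (p : ℤ) ∣ f.eval (a : ℤ) := by
  unfold Alw
  constructor
  · intro h p hp hpq f hf hd
    have h1 : (p : ℤ) ∣ ∏ f ∈ F, f.eval (a : ℤ) := hd.trans (dvd_prod_of_mem _ hf)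
    have h2 : p ∣ Int.gcd (∏ f ∈ F, f.eval (a : ℤ)) q := by
      rw [Int.gcd_eq_natAbs]
      exact Nat.dvd_gcd (Int.natCast_dvd.1 h1) (by simpa using hpq)
    rw [h] at h2
    exact hp.one_lt.ne' (Nat.dvd_one.1 h2)
  · intro h
    by_contra hne
    obtain ⟨p, hp, hpd⟩ := Nat.exists_prime_and_dvd hne
    rw [Int.gcd_eq_natAbs] at hpd
    have h1 : (p : ℤ) ∣ ∏ f ∈ F, f.eval (a : ℤ) := Int.natCast_dvd.2 (hpd.trans (Nat.gcd_dvd_left _ _))
    have h2 : p ∣ q := by simpa using hpd.trans (Nat.gcd_dvd_right _ _)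
    obtain ⟨f, hf, hfd⟩ := (Nat.prime_iff_prime_int.1 hp).exists_mem_finset_dvd h1
    exact h p hp h2 f hf hfd

/-- the system of the class `a` modulo `q` -/
noncomputable def sub (F : Finset ℤ[X]) (q a : ℕ) : Finset ℤ[X] := F.image fun f => f.comp (lin q a)

theorem sub_card (F : Finset ℤ[X]) {q : ℕ} (hq : 0 < q) (a : ℕ) : (sub F q a).card = F.card := by
  unfold sub
  exact card_image_of_injective _ fun _ _ h => lin_inj hq a h

theorem sub_prod {M : Type*} [CommMonoid M] (F : Finset ℤ[X]) {q : ℕ} (hq : 0 < q) (a : ℕ) (u : ℤ[X] → M) :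
    ∏ g ∈ sub F q a, u g = ∏ f ∈ F, u (f.comp (lin q a)) := by
  unfold sub
  exact prod_image fun _ _ _ _ h => lin_inj hq a h

theorem map_lin (q a : ℕ) {R : Type*} [CommRing R] : (lin q a).map (Int.castRingHom R) = C (q : R) * X + C (a : R) := by
  simp [lin]

theorem sub_prim {f : ℤ[X]} (hf : GP f) {q : ℕ} (hq : 0 < q) (a : ℕ)
    (ha : ∀ p, p.Prime → p ∣ q → ¬ (p : ℤ) ∣ f.eval (a : ℤ)) : (f.comp (lin q a)).IsPrimitive := by
  intro r hr
  by_contra hunit
  have h0 : f.comp (lin q a) ≠ 0 := fun h => hf.irr.ne_zero (lin_inj hq a (by rw [h, zero_comp]))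
  have hr0 : r ≠ 0 := by
    rintro rfl
    rw [map_zero, zero_dvd_iff] at hr
    exact h0 hr
  have h1 : r.natAbs ≠ 1 := fun h => hunit (Int.isUnit_iff_natAbs_eq.2 h)
  obtain ⟨p, hp, hpr⟩ := Nat.exists_prime_and_dvd h1
  have hpr' : (p : ℤ) ∣ r := Int.natCast_dvd.2 hpr
  have hCp : C (p : ℤ) ∣ f.comp (lin q a) := (map_dvd C hpr').trans hr
  by_cases hpq : p ∣ q
  · apply ha p hp hpq
    obtain ⟨g, hg⟩ := hCp
    have h2 := congrArg (fun u : ℤ[X] => u.eval 0) hg
    simp only [lin_eval, mul_zero, zero_add, eval_mul, eval_C] at h2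
    exact ⟨_, h2⟩
  · have : Fact p.Prime := ⟨hp⟩
    have h2 : (f.comp (lin q a)).map (Int.castRingHom (ZMod p)) = 0 := by
      obtain ⟨g, hg⟩ := hCp
      rw [hg, Polynomial.map_mul, map_C]
      simp
    rw [Polynomial.map_comp, map_lin] at h2
    rcases comp_eq_zero_iff.1 h2 with h3 | ⟨-, h3⟩
    · have h4 : C (p : ℤ) ∣ f := by
        rw [C_dvd_iff_dvd_coeff]
        intro i
        have h5 := congrArg (fun u : (ZMod p)[X] => u.coeff i) h3
        simp only [coeff_map, coeff_zero, eq_intCast] at h5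
        exact (ZMod.intCast_zmod_eq_zero_iff_dvd _ _).1 h5
      have h5 := (hf.irr.isPrimitive hf.deg.ne') (p : ℤ) h4
      exact hp.one_lt.ne' (by simpa using Int.isUnit_iff_natAbs_eq.1 h5)
    · have hq0 : (q : ZMod p) ≠ 0 := by
        rw [Ne, ZMod.natCast_eq_zero_iff]
        exact hpq
      have h4 : (C (q : ZMod p) * X + C (a : ZMod p)).natDegree = 1 := natDegree_linear hq0
      rw [h3, natDegree_C] at h4
      omega

theorem sub_GP {f : ℤ[X]} (hf : GP f) {q : ℕ} (hq : 0 < q) (a : ℕ)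
    (ha : ∀ p, p.Prime → p ∣ q → ¬ (p : ℤ) ∣ f.eval (a : ℤ)) : GP (f.comp (lin q a)) := by
  refine ⟨?_, ?_, ?_⟩
  · rw [IsPrimitive.Int.irreducible_iff_irreducible_map_cast (sub_prim hf hq a ha), Polynomial.map_comp, map_lin]
    have h1 := (IsPrimitive.Int.irreducible_iff_irreducible_map_cast (hf.irr.isPrimitive hf.deg.ne')).1 hf.irr
    have hq0 : (q : ℚ) ≠ 0 := by exact_mod_cast hq.ne'
    let _ : Invertible (q : ℚ) := invertibleOfNonzero hq0
    have h2 := (MulEquiv.irreducible_iff (algEquivCMulXAddC (q : ℚ) (a : ℚ)).toMulEquiv).2 h1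
    have e : (algEquivCMulXAddC (q : ℚ) (a : ℚ)).toMulEquiv (f.map (Int.castRingHom ℚ)) =
        (f.map (Int.castRingHom ℚ)).comp (C (q : ℚ) * X + C (a : ℚ)) := by
      show (algEquivCMulXAddC (q : ℚ) (a : ℚ)) (f.map (Int.castRingHom ℚ)) = _
      rw [algEquivCMulXAddC_apply]
      rfl
    rw [e] at h2
    exact h2
  · rw [natDegree_comp, lin_deg hq, mul_one]
    exact hf.deg
  · rw [leadingCoeff_comp (by rw [lin_deg hq]; omega), lin_lc hq]
    exact mul_pos hf.lead (pow_pos (by exact_mod_cast hq) _)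

theorem sub_deg {f : ℤ[X]} {q : ℕ} (hq : 0 < q) (a : ℕ) : (f.comp (lin q a)).natDegree = f.natDegree := by
  rw [natDegree_comp, lin_deg hq, mul_one]

/-- the zeros modulo the primes which do not divide `q` -/
theorem om_ndvd (F : Finset ℤ[X]) {q : ℕ} (hq : 0 < q) (a p : ℕ) (hp : p.Prime) (hpq : ¬ p ∣ q) :
    omF (sub F q a) p = omF F p := by
  unfold omF
  have hev : ∀ n : ℕ, ∏ g ∈ sub F q a, g.eval (n : ℤ) = ∏ f ∈ F, f.eval ((q * n + a : ℕ) : ℤ) := by
    intro n
    rw [sub_prod F hq]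
    refine prod_congr rfl fun f _ => ?_
    rw [lin_eval]
    push_cast
    rfl
  have hper : ∀ m : ℕ, (p : ℤ) ∣ ∏ f ∈ F, f.eval (m : ℤ) ↔ (p : ℤ) ∣ ∏ f ∈ F, f.eval ((m % p : ℕ) : ℤ) := by
    intro m
    have h1 : (∏ f ∈ F, f.eval (m : ℤ)) ≡ (∏ f ∈ F, f.eval ((m % p : ℕ) : ℤ)) [ZMOD p] := by
      have h2 : ∀ f : ℤ[X], f.eval (m : ℤ) ≡ f.eval ((m % p : ℕ) : ℤ) [ZMOD p] := by
        intro f
        have h3 : (m : ℤ) - ((m % p : ℕ) : ℤ) ∣ f.eval (m : ℤ) - f.eval ((m % p : ℕ) : ℤ) := sub_dvd_eval_sub _ _ f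
        have h4 : (p : ℤ) ∣ (m : ℤ) - ((m % p : ℕ) : ℤ) := by
          have h5 := Nat.div_add_mod m p
          refine ⟨((m / p : ℕ) : ℤ), ?_⟩
          have h6 : (m : ℤ) = p * ((m / p : ℕ) : ℤ) + ((m % p : ℕ) : ℤ) := by exact_mod_cast h5.symm
          linarith
        exact (Int.modEq_iff_dvd.2 (h4.trans h3)).symm
      exact Int.ModEq.prod fun f _ => h2 f
    rw [Int.dvd_iff_emod_eq_zero, Int.dvd_iff_emod_eq_zero, h1]
  have hcop : Nat.Coprime p q := (Nat.Prime.coprime_iff_not_dvd hp).2 hpq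
  have hp0 : 0 < p := hp.pos
  set φ : ℕ → ℕ := fun n => (q * n + a) % p with hφ
  have hmaps : Set.MapsTo φ (range p : Finset ℕ) (range p : Finset ℕ) := fun n _ => by
    simp only [hφ, coe_range, Set.mem_Iio]
    exact Nat.mod_lt _ hp0
  have hinj : Set.InjOn φ (range p : Finset ℕ) := by
    intro n hn m hm h
    have hn' : n < p := by simpa using hn
    have hm' : m < p := by simpa using hm
    have h1 : q * n + a ≡ q * m + a [MOD p] := h
    have h2 : q * n ≡ q * m [MOD p] := Nat.ModEq.add_right_cancel' a h1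
    have h3 : n ≡ m [MOD p] := Nat.ModEq.cancel_left_of_coprime hcop h2
    have h4 : n % p = m % p := h3
    rwa [Nat.mod_eq_of_lt hn', Nat.mod_eq_of_lt hm'] at h4
  have hsurj := surjOn_of_injOn_of_card_le φ hmaps hinj le_rfl
  refine card_nbij φ ?_ ?_ ?_
  · intro n hn
    rw [mem_coe, mem_filter] at hn ⊢
    refine ⟨by simpa using hmaps (by simpa using hn.1), ?_⟩
    have h1 := hn.2
    rw [hev, hper] at h1
    exact h1
  · exact hinj.mono fun n hn => by
      rw [mem_coe, mem_filter] at hn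
      exact mem_coe.2 hn.1
  · intro m hm
    rw [mem_coe, mem_filter] at hm
    obtain ⟨n, hn, hnm⟩ := hsurj (mem_coe.2 hm.1)
    refine ⟨n, ?_, hnm⟩
    rw [mem_coe, mem_filter]
    refine ⟨mem_coe.1 hn, ?_⟩
    rw [hev, hper]
    have h1 : (q * n + a) % p = m := hnm
    rw [h1]
    exact hm.2

/-- no zeros modulo the primes which divide `q` -/
theorem om_dvd (F : Finset ℤ[X]) {q : ℕ} (hq : 0 < q) (a p : ℕ) (hp : p.Prime) (hpq : p ∣ q) (ha : Alw F q a) :
    omF (sub F q a) p = 0 := by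
  unfold omF
  rw [card_eq_zero, filter_eq_empty_iff]
  intro n _ hd
  rw [sub_prod F hq] at hd
  obtain ⟨f, hf, hfd⟩ := (Nat.prime_iff_prime_int.1 hp).exists_mem_finset_dvd hd
  rw [lin_eval] at hfd
  apply (alw_iff F q a).1 ha p hp hpq f hf
  have h1 : ((q : ℤ) * n + a) - a ∣ f.eval ((q : ℤ) * n + a) - f.eval (a : ℤ) := sub_dvd_eval_sub _ _ f
  have h2 : (p : ℤ) ∣ ((q : ℤ) * n + a) - a := by
    rw [add_sub_cancel_right]
    exact (Int.natCast_dvd_natCast.2 hpq).mul_right _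
  have h3 := h2.trans h1
  have h4 : f.eval (a : ℤ) = f.eval ((q : ℤ) * n + a) - (f.eval ((q : ℤ) * n + a) - f.eval (a : ℤ)) := by ring
  rw [h4]
  exact dvd_sub hfd h3

theorem om_lt (F : Finset ℤ[X]) {q : ℕ} (hq : 0 < q) (a : ℕ) (ha : Alw F q a) (hF : ∀ p : ℕ, p.Prime → omF F p < p)
    (p : ℕ) (hp : p.Prime) : omF (sub F q a) p < p := by
  by_cases hpq : p ∣ q
  · rw [om_dvd F hq a p hp hpq ha]
    exact hp.pos
  · rw [om_ndvd F hq a p hp hpq]
    exact hF p hp

theorem CF_sub (F : Finset ℤ[X]) {q : ℕ} (hq : 0 < q) (a a' : ℕ) (ha : Alw F q a) (ha' : Alw F q a') :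
    CF (sub F q a) = CF (sub F q a') := by
  funext x
  unfold CF
  refine prod_congr rfl fun p hp => ?_
  have hpp := (mem_filter.1 hp).2
  rw [sub_card F hq, sub_card F hq]
  by_cases hpq : p ∣ q
  · rw [om_dvd F hq a p hpp hpq ha, om_dvd F hq a' p hpp hpq ha']
  · rw [om_ndvd F hq a p hpp hpq, om_ndvd F hq a' p hpp hpq]

/-- the systems of two classes are not translates of each other -/
theorem sub_not_translate (F : Finset ℤ[X]) (hF : ∀ f ∈ F, GP f) (hne : F.Nonempty) {q : ℕ} (hq : 0 < q) (a a' : ℕ)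
    (ha : a < q) (ha' : a' < q) (haa : a ≠ a') (t : ℤ) :
    sub F q a ≠ (sub F q a').image fun f => f.comp (X + C t) := by
  intro h
  set c : ℤ := q * t + a' - a with hc
  have hcomp : (lin q a').comp (X + C t) = (X + C c).comp (lin q a) := by
    unfold lin
    simp only [hc, map_add, map_sub, map_mul, add_comp, sub_comp, mul_comp, C_comp, X_comp]
    ring
  have h1 : (F.image fun f => f.comp (X + C c)).image (fun f => f.comp (lin q a)) = F.image fun f => f.comp (lin q a) := by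
    have h2 : (sub F q a').image (fun f => f.comp (X + C t)) =
        (F.image fun f => f.comp (X + C c)).image (fun f => f.comp (lin q a)) := by
      unfold sub
      rw [image_image, image_image]
      refine image_congr fun f _ => ?_
      simp only [Function.comp_apply]
      rw [comp_assoc, comp_assoc, hcomp]
    rw [← h2, ← h]
    rfl
  have h3 : F.image (fun f => f.comp (X + C c)) = F :=
    image_injective (fun _ _ h4 => lin_inj hq a h4) h1
  have h4 := not_shift F hF hne c h3.symm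
  rw [hc] at h4
  have h5 : (q : ℤ) ∣ (a : ℤ) - a' := ⟨t, by linarith⟩
  have h6 : a ≡ a' [MOD q] := by
    have := (Int.modEq_iff_dvd.2 h5).symm
    exact (Int.natCast_modEq_iff.1 this)
  have h7 : a % q = a' % q := h6
  rw [Nat.mod_eq_of_lt ha, Nat.mod_eq_of_lt ha'] at h7
  exact haa h7

end Pool.Agent.H531.LO
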