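import Pool.Agent.H531.LO.Cons

set_option autoImplicit false

/-!
# Windows which contain one element each
-/

open Finset Filter Topology

namespace Pool.Agent.H531.LO

/-- the number of the `X` in `(n + lo, n + hi]` with `q X + a ∈ A` -/
noncomputable def Nw (A : Set ℕ) (q a : ℕ) (lo hi : ℝ) (n : ℕ) : ℕ :=
  {X : ℕ | n + lo < X ∧ X ≤ n + hi ∧ q * X + a ∈ A}.ncard

theorem win_fin (A : Set ℕ) (q a : ℕ) (lo hi : ℝ) (n : ℕ) :
    {X : ℕ | n + lo < X ∧ X ≤ n + hi ∧ q * X + a ∈ A}.Finite := by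
  refine (Set.finite_Iic ⌊(n : ℝ) + hi⌋₊).subset fun X hX => ?_
  exact Nat.le_floor hX.2.1

/-- the positions of the windows -/
def ls {r : ℕ} (g : Fin r → ℕ) (j : ℕ) : ℕ := ∑ i : Fin r, if i.val < j then g i else 0

theorem ls_zero {r : ℕ} (g : Fin r → ℕ) : ls g 0 = 0 := by simp [ls]

theorem ls_succ {r : ℕ} (g : Fin r → ℕ) (j : ℕ) (hj : j < r) : ls g (j + 1) = ls g j + g ⟨j, hj⟩ := by
  unfold ls
  have h1 : ∀ i : Fin r, (if i.val < j + 1 then g i else 0) =
      (if i.val < j then g i else 0) + (if i = ⟨j, hj⟩ then g i else 0) := by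
    intro i
    by_cases h2 : i.val < j
    · have h3 : i ≠ ⟨j, hj⟩ := by
        rintro rfl
        simp at h2
      rw [if_pos h2, if_pos (by omega), if_neg h3]
      rfl
    · by_cases h3 : i = ⟨j, hj⟩
      · subst h3
        simp
      · have h4 : ¬ i.val < j + 1 := by
          intro h5
          exact h3 (Fin.ext (by simp; omega))
        rw [if_neg h2, if_neg h3, if_neg h4]
  rw [sum_congr rfl fun i _ => h1 i, sum_add_distrib]
  congr 1
  rw [sum_ite_eq' univ]
  simp

theorem ls_last {r : ℕ} (g : Fin r → ℕ) : ls g r = ∑ i, g i := by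
  unfold ls
  exact sum_congr rfl fun i _ => if_pos i.2

theorem ls_lt {r : ℕ} (g : Fin r → ℕ) (hg : ∀ i, 1 ≤ g i) {i j : ℕ} (hij : i < j) (hj : j ≤ r) : ls g i < ls g j := by
  induction j with
  | zero => omega
  | succ j ih =>
    have h1 := ls_succ g j (by omega)
    have h2 := hg ⟨j, by omega⟩
    rcases Nat.lt_or_ge i j with h3 | h3
    · have := ih h3 (by omega)
      omega
    · have : i = j := by omega
      subst this
      omega

theorem ls_le {r : ℕ} (g : Fin r → ℕ) {i j : ℕ} (hij : i ≤ j) : ls g i ≤ ls g j := by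
  unfold ls
  refine sum_le_sum fun t _ => ?_
  split_ifs with h1 h2
  · exact le_rfl
  · omega
  · exact Nat.zero_le _
  · exact le_rfl

open Classical in
/-- the numbers prescribed -/
noncomputable def rho {r : ℕ} (b : ℕ → ℕ) (g : Fin r → ℕ) (a l : ℕ) : ℕ := if ∃ j ≤ r, b j = a ∧ ls g j = l then 1 else 0

/-- the event -/
def Ev (A : Set ℕ) (q : ℕ) (Al : Finset ℕ) {r : ℕ} (b : ℕ → ℕ) (g : Fin r → ℕ) (w : ℝ) (n : ℕ) : Prop :=
  ∀ a ∈ Al, ∀ l ≤ ls g r, Nw A q a (l * w) ((l + 1) * w) n = rho b g a l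

variable {A : Set ℕ} {q : ℕ} {Al : Finset ℕ} {r : ℕ}

theorem ev_string (hq : 0 < q) (hAl : ∀ a ∈ Al, a < q) (M0 : ℕ) (hM : ∀ m ∈ A, M0 ≤ m → m % q ∈ Al) (b : ℕ → ℕ)
    (hb : ∀ j ≤ r, b j ∈ Al) (g : Fin r → ℕ) (hg : ∀ i, 1 ≤ g i) (w : ℝ) (hw : 0 < w) (n : ℕ) (hn : M0 ≤ n)
    (hE : Ev A q Al b g w n) :
    ∃ X : ℕ → ℕ, (∀ j ≤ r, n + ls g j * w < X j ∧ (X j : ℝ) ≤ n + (ls g j + 1) * w ∧ q * X j + b j ∈ A) ∧
      (∀ j ≤ r, ∀ Y : ℕ, n + ls g j * w < Y → (Y : ℝ) ≤ n + (ls g j + 1) * w → q * Y + b j ∈ A → Y = X j) ∧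
      ∀ j ≤ r, el A (ix A (q * X 0 + b 0) + j) = q * X j + b j := by
  have hone : ∀ j ≤ r, ∃ X : ℕ, {X : ℕ | n + ls g j * w < X ∧ (X : ℝ) ≤ n + (ls g j + 1) * w ∧ q * X + b j ∈ A} = {X} := by
    intro j hj
    have h1 := hE (b j) (hb j hj) (ls g j) (ls_le g hj)
    rw [rho, if_pos ⟨j, hj, rfl, rfl⟩] at h1
    exact Set.ncard_eq_one.1 h1
  choose! X hX using hone
  have hX1 : ∀ j ≤ r, n + ls g j * w < X j ∧ (X j : ℝ) ≤ n + (ls g j + 1) * w ∧ q * X j + b j ∈ A := by
    intro j hj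
    have h1 : X j ∈ ({X j} : Set ℕ) := rfl
    rw [← hX j hj] at h1
    exact h1
  have hX2 : ∀ j ≤ r, ∀ Y : ℕ, n + ls g j * w < Y → (Y : ℝ) ≤ n + (ls g j + 1) * w → q * Y + b j ∈ A → Y = X j := by
    intro j hj Y h1 h2 h3
    have h4 : Y ∈ {X : ℕ | n + ls g j * w < X ∧ (X : ℝ) ≤ n + (ls g j + 1) * w ∧ q * X + b j ∈ A} := ⟨h1, h2, h3⟩
    rw [hX j hj] at h4
    exact h4
  refine ⟨X, hX1, hX2, ?_⟩
  have hXlt : ∀ j < r, X j < X (j + 1) := by
    intro j hj
    have h1 := (hX1 j hj.le).2.1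
    have h2 := (hX1 (j + 1) hj).1
    have h3 := ls_lt g hg (Nat.lt_succ_self j) hj
    have h4 : ((ls g j : ℝ) + 1) ≤ ls g (j + 1) := by exact_mod_cast h3
    have h5 : ((ls g j : ℝ) + 1) * w ≤ ls g (j + 1) * w := by gcongr
    have h6 : (X j : ℝ) < X (j + 1) := by linarith
    exact_mod_cast h6
  have hbq : ∀ j ≤ r, b j < q := fun j hj => hAl _ (hb j hj)
  refine el_string r (fun j => q * X j + b j) (fun j hj => (hX1 j hj).2.2) ?_ ?_
  · intro j hj
    have h1 := hXlt j hj
    have h2 : q * (X j + 1) ≤ q * X (j + 1) := Nat.mul_le_mul_left _ h1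
    have h3 := hbq j hj.le
    show q * X j + b j < q * X (j + 1) + b (j + 1)
    rw [mul_add, mul_one] at h2
    omega
  · intro j hj m hm1 hm2 hmA
    have hX0 : n < X 0 := by
      have h1 := (hX1 0 (Nat.zero_le _)).1
      rw [ls_zero, Nat.cast_zero, zero_mul, add_zero] at h1
      exact_mod_cast h1
    have hXm : ∀ j ≤ r, X 0 ≤ X j := by
      intro j
      induction j with
      | zero => intro _; exact le_rfl
      | succ j ih =>
        intro hj
        have := hXlt j (by omega)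
        have := ih (by omega)
        omega
    have hXj0 := hXm j hj.le
    have hqX : X j ≤ q * X j := Nat.le_mul_of_pos_left _ hq
    have hm1' : q * X j + b j < m := hm1
    have hm2' : m < q * X (j + 1) + b (j + 1) := hm2
    have hmod : m % q ∈ Al := hM m hmA (by omega)
    set Y := m / q with hY
    have hmY : q * Y + m % q = m := Nat.div_add_mod m q
    have hmq : m % q < q := Nat.mod_lt _ hq
    have hY1 : X j ≤ Y := by
      rw [hY, Nat.le_div_iff_mul_le hq, mul_comm]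
      omega
    have hY2 : Y ≤ X (j + 1) := by
      by_contra hcon
      push Not at hcon
      have h2 : q * (X (j + 1) + 1) ≤ q * Y := Nat.mul_le_mul_left _ hcon
      have h3 := hbq (j + 1) hj
      rw [mul_add, mul_one] at h2
      omega
    -- the window of `Y`
    have hYn : (n : ℝ) < Y := by
      have : n < Y := by omega
      exact_mod_cast this
    set l := ⌈((Y : ℝ) - n) / w⌉₊ - 1 with hl
    have hpos : 0 < ((Y : ℝ) - n) / w := div_pos (by linarith) hw
    have hceil : 1 ≤ ⌈((Y : ℝ) - n) / w⌉₊ := Nat.one_le_ceil_iff.2 hpos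
    have hl1 : (l : ℝ) + 1 = ⌈((Y : ℝ) - n) / w⌉₊ := by
      rw [hl]
      push_cast [Nat.cast_sub hceil]
      ring
    have hw1 : (n : ℝ) + l * w < Y := by
      have h1 : (⌈((Y : ℝ) - n) / w⌉₊ : ℝ) < ((Y : ℝ) - n) / w + 1 := Nat.ceil_lt_add_one hpos.le
      have h2 : (l : ℝ) < ((Y : ℝ) - n) / w := by linarith
      rw [lt_div_iff₀ hw] at h2
      linarith
    have hw2 : (Y : ℝ) ≤ n + (l + 1) * w := by
      have h1 : ((Y : ℝ) - n) / w ≤ l + 1 := by
        rw [hl1]
        exact Nat.le_ceil _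
      rw [div_le_iff₀ hw] at h1
      linarith
    have hlj : ls g j ≤ l := by
      by_contra hcon
      push Not at hcon
      have h1 : (l : ℝ) + 1 ≤ ls g j := by exact_mod_cast hcon
      have h2 : ((l : ℝ) + 1) * w ≤ ls g j * w := by gcongr
      have h3 := (hX1 j hj.le).1
      have h4 : (X j : ℝ) ≤ Y := by exact_mod_cast hY1
      linarith
    have hlj' : l ≤ ls g (j + 1) := by
      by_contra hcon
      push Not at hcon
      have h1 : (ls g (j + 1) : ℝ) + 1 ≤ l := by exact_mod_cast hcon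
      have h2 : ((ls g (j + 1) : ℝ) + 1) * w ≤ l * w := by gcongr
      have h3 := (hX1 (j + 1) hj).2.1
      have h4 : (Y : ℝ) ≤ X (j + 1) := by exact_mod_cast hY2
      linarith
    have hev := hE (m % q) hmod l (hlj'.trans (ls_le g hj))
    have hmem : Y ∈ {X : ℕ | n + l * w < X ∧ (X : ℝ) ≤ n + (l + 1) * w ∧ q * X + m % q ∈ A} :=
      ⟨hw1, hw2, by rw [hmY]; exact hmA⟩
    have hne : Nw A q (m % q) (l * w) ((l + 1) * w) n ≠ 0 := by
      unfold Nw
      rw [Ne, Set.ncard_eq_zero (win_fin A q (m % q) _ _ n)]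
      exact fun h => by
        rw [h] at hmem
        exact hmem
    rw [hev, rho] at hne
    split_ifs at hne with hcond
    · obtain ⟨i, hi, hbi, hli⟩ := hcond
      have hYX : Y = X i := by
        refine hX2 i hi Y ?_ ?_ ?_
        · rw [hli]
          exact hw1
        · rw [hli]
          exact hw2
        · rw [hbi, hmY]
          exact hmA
      have hij : i = j ∨ i = j + 1 := by
        by_contra hcon
        push Not at hcon
        rcases Nat.lt_or_ge i j with h1 | h1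
        · have := ls_lt g hg h1 hj.le
          omega
        · have h2 : j + 1 < i := by omega
          have := ls_lt g hg h2 hi
          omega
      rcases hij with rfl | rfl
      · have : m = q * X i + b i := by rw [← hmY, hYX, hbi]
        omega
      · have : m = q * X (j + 1) + b (j + 1) := by rw [← hmY, hYX, hbi]
        omega
    · exact hne rfl

end Pool.Agent.H531.LO
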